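import Pool.Agent.H25.NP.Alt
import Pool.Agent.H25.NP.Main

/-!
The chain argument on average over the place of the clique; changes of the output of a circuit.
-/

namespace Pool.Agent.H25.PC

open Finset
open Pool.Agent.H25.NM Pool.Agent.H25.NP

set_option linter.unusedSectionVars false

section

variable {V Ω P : Type} [Fintype V] [Fintype Ω] [Fintype P] {n J : ℕ}
variable {φ : Fin J → V ↪ Fin n} {R : Ω → SimpleGraph V} {A : P → Finset V}

/-- **Chain theorem, averaged.** -/
theorem chain_avg [Nonempty Ω] {s : ℕ} {ε : ℝ}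
    (BL : ∀ F : SimpleGraph V → Prop, MonoSize s F →
      (nc (fun x : P × Ω => F (cq (A x.1)) ∧ ¬ F (R x.2)) : ℝ) ≤
        Fintype.card P * nc (fun ω => F (R ω)) + ε * (Fintype.card P * Fintype.card Ω))
    {F : SimpleGraph (Fin n) → SimpleGraph (Fin n) → Prop} (hF : ∀ G, MonoSize s (F G))
    {a : ℕ} (halt : ∀ ω : Fin J → Ω,
      nc (fun j : Fin J => F (pre φ R ω j.1) (pre φ R ω (j.1 + 1))) ≤ a) :
    ∑ j : Fin J, (nc (fun x : P × (Fin J → Ω) =>
        F (pre φ R x.2 j.1) (pre φ R x.2 j.1 ⊔ (cq (A x.1)).map (φ j))) : ℝ) ≤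
      (2 * a + J * ε) * (Fintype.card P * Fintype.card (Fin J → Ω)) := by
  -- per block
  have h1 : ∀ j : Fin J, (nc (fun x : P × (Fin J → Ω) =>
        F (pre φ R x.2 j.1) (pre φ R x.2 j.1 ⊔ (cq (A x.1)).map (φ j))) : ℝ) ≤
      2 * (Fintype.card P * nc (fun ω : Fin J → Ω =>
        F (pre φ R ω j.1) (pre φ R ω (j.1 + 1)))) +
        ε * (Fintype.card P * Fintype.card (Fin J → Ω)) := by
    intro j
    have e2 : nc (fun x : P × (Fin J → Ω) =>
          F (pre φ R x.2 j.1) (pre φ R x.2 j.1 ⊔ (cq (A x.1)).map (φ j))) ≤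
        nc (fun x : P × (Fin J → Ω) =>
          F (pre φ R x.2 j.1) (pre φ R x.2 j.1 ⊔ (cq (A x.1)).map (φ j)) ∧
            ¬ F (pre φ R x.2 j.1) (pre φ R x.2 (j.1 + 1))) +
        nc (fun x : P × (Fin J → Ω) =>
          True ∧ F (pre φ R x.2 j.1) (pre φ R x.2 (j.1 + 1))) := by
      refine le_trans (nc_mono fun x hx => ?_) (nc_or_le _ _)
      by_cases h3 : F (pre φ R x.2 j.1) (pre φ R x.2 (j.1 + 1))
      · exact Or.inr ⟨trivial, h3⟩
      · exact Or.inl ⟨hx, h3⟩
    have e3 := error_le' (φ := φ) BL hF j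
    have e4 : nc (fun x : P × (Fin J → Ω) =>
          True ∧ F (pre φ R x.2 j.1) (pre φ R x.2 (j.1 + 1))) =
          Fintype.card P * nc (fun ω : Fin J → Ω =>
            F (pre φ R ω j.1) (pre φ R ω (j.1 + 1))) := by
      rw [nc_prod_and (fun _ : P => True) fun ω : Fin J → Ω =>
        F (pre φ R ω j.1) (pre φ R ω (j.1 + 1)), nc_true fun _ => trivial]
    rw [e4] at e2
    have e5 : (nc (fun x : P × (Fin J → Ω) =>
          F (pre φ R x.2 j.1) (pre φ R x.2 j.1 ⊔ (cq (A x.1)).map (φ j))) : ℝ) ≤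
        nc (fun x : P × (Fin J → Ω) =>
          F (pre φ R x.2 j.1) (pre φ R x.2 j.1 ⊔ (cq (A x.1)).map (φ j)) ∧
            ¬ F (pre φ R x.2 j.1) (pre φ R x.2 (j.1 + 1))) +
        Fintype.card P * nc (fun ω : Fin J → Ω =>
            F (pre φ R ω j.1) (pre φ R ω (j.1 + 1))) := by exact_mod_cast e2
    linarith
  -- sum over the blocks
  refine (Finset.sum_le_sum fun j _ => h1 j).trans ?_
  have h3 : ∑ j : Fin J, nc (fun ω : Fin J → Ω => F (pre φ R ω j.1) (pre φ R ω (j.1 + 1))) ≤
      a * Fintype.card (Fin J → Ω) := by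
    have g1 := nc_prod fun (j : Fin J) (ω : Fin J → Ω) => F (pre φ R ω j.1) (pre φ R ω (j.1 + 1))
    rw [← g1]
    have g2 := nc_equiv (Equiv.prodComm (Fin J → Ω) (Fin J)) fun x : Fin J × (Fin J → Ω) =>
      F (pre φ R x.2 x.1.1) (pre φ R x.2 (x.1.1 + 1))
    rw [← g2]
    have g3 := nc_prod fun (ω : Fin J → Ω) (j : Fin J) => F (pre φ R ω j.1) (pre φ R ω (j.1 + 1))
    refine (le_of_eq g3).trans ?_
    calc ∑ ω : Fin J → Ω, nc (fun j : Fin J => F (pre φ R ω j.1) (pre φ R ω (j.1 + 1)))
        ≤ ∑ ω : Fin J → Ω, a := Finset.sum_le_sum fun ω _ => halt ω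
      _ = a * Fintype.card (Fin J → Ω) := by
          rw [Finset.sum_const, Finset.card_univ, smul_eq_mul, mul_comm]
  have h3' : (∑ j : Fin J, (nc (fun ω : Fin J → Ω =>
      F (pre φ R ω j.1) (pre φ R ω (j.1 + 1))) : ℝ)) ≤ a * Fintype.card (Fin J → Ω) := by
    exact_mod_cast h3
  rw [Finset.sum_add_distrib, Finset.sum_const, nsmul_eq_mul, Finset.card_univ,
    Fintype.card_fin, ← Finset.mul_sum, ← Finset.mul_sum]
  have h6 := mul_le_mul_of_nonneg_left h3' (Nat.cast_nonneg (α := ℝ) (Fintype.card P))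
  linarith

end

/-- The output changes at most once more often than the watched gates. -/
theorem out_changes {n s : ℕ} (C : Circuit n s) (out : Fin s) {X : ℕ → SimpleGraph (Fin n)}
    (hX : Monotone X) (J : ℕ) :
    nc (fun j : Fin J => ∃ i ∈ insert out C.watched,
      ¬ (C.fn i (X j.1) ↔ C.fn i (X (j.1 + 1)))) ≤
    2 * nc (fun j : Fin J => ∃ i ∈ C.watched, ¬ (C.fn i (X j.1) ↔ C.fn i (X (j.1 + 1)))) + 1 := by
  classical
  let w : ℕ → Prop := fun j => ∃ i ∈ C.watched, ¬ (C.fn i (X j) ↔ C.fn i (X (j + 1)))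
  let o : ℕ → Prop := fun j => ¬ w j ∧ ¬ (C.fn out (X j) ↔ C.fn out (X (j + 1)))
  -- without a change of a watched gate the output is monotone
  have hmon : ∀ j, ¬ w j → C.fn out (X j) → C.fn out (X (j + 1)) := by
    intro j hj
    refine C.mono' (fun _ => True) (fun _ _ _ _ => trivial) (hX (Nat.le_succ j)) ?_ out trivial
    intro l hl _
    refine C.special_eq hl fun i hi _ => ?_
    by_contra hne
    exact hj ⟨i, hi, hne⟩
  have hcount : ∀ J : ℕ, (¬ C.fn out (X J) →
      ((range J).filter o).card ≤ ((range J).filter w).card) ∧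
      ((range J).filter o).card ≤ ((range J).filter w).card + 1 := by
    intro J
    induction J with
    | zero =>
      simp
    | succ J ih =>
      rw [Finset.range_add_one, Finset.filter_insert, Finset.filter_insert]
      by_cases hw : w J
      · have ho : ¬ o J := fun h => h.1 hw
        rw [if_neg ho, if_pos hw, Finset.card_insert_of_notMem (by simp)]
        exact ⟨fun _ => ih.2, by omega⟩
      · rw [if_neg hw]
        by_cases ho : o J
        · rw [if_pos ho, Finset.card_insert_of_notMem (by simp)]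
          have h1 : ¬ C.fn out (X J) := by
            intro h
            exact ho.2 ⟨fun _ => hmon J hw h, fun _ => h⟩
          have h2 : C.fn out (X (J + 1)) := by
            by_contra h
            exact ho.2 ⟨fun h' => absurd h' h1, fun h' => absurd h' h⟩
          have h3 := ih.1 h1
          exact ⟨fun h => absurd h2 h, by omega⟩
        · rw [if_neg ho]
          have h1 : C.fn out (X J) ↔ C.fn out (X (J + 1)) := by
            by_contra h
            exact ho ⟨hw, h⟩
          rw [← h1]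
          exact ih
  have h1 : nc (fun j : Fin J => ∃ i ∈ insert out C.watched,
      ¬ (C.fn i (X j.1) ↔ C.fn i (X (j.1 + 1)))) ≤
      nc (fun j : Fin J => w j.1) + nc (fun j : Fin J => o j.1) := by
    refine le_trans (nc_mono fun j hj => ?_) (nc_or_le _ _)
    by_cases hw : w j.1
    · exact Or.inl hw
    · right
      refine ⟨hw, ?_⟩
      obtain ⟨i, hi, hne⟩ := hj
      rcases Finset.mem_insert.1 hi with rfl | hi
      · exact hne
      · exact absurd ⟨i, hi, hne⟩ hw
  have h2 : nc (fun j : Fin J => w j.1) = ((range J).filter w).card := by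
    rw [nc_fin_eq J w]
    congr
  have h3 : nc (fun j : Fin J => o j.1) = ((range J).filter o).card := by
    rw [nc_fin_eq J o]
    congr
  have h4 := (hcount J).2
  have h5 : nc (fun j : Fin J => ∃ i ∈ C.watched,
      ¬ (C.fn i (X j.1) ↔ C.fn i (X (j.1 + 1)))) = ((range J).filter w).card := h2
  rw [h5]
  omega

end Pool.Agent.H25.PC
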