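import Mathlib

/-!
Labelled random graphs and the detection of a clique that is planted in any subgraph.
-/

namespace Pool.Agent.H25.PC

/-- The graph whose edges are the pairs of vertices with a label in `S`. -/
def labelled {n Q : ℕ} (S : Finset (Fin Q)) (x : Sym2 (Fin n) → Fin Q) : SimpleGraph (Fin n) :=
  SimpleGraph.fromEdgeSet {e | x e ∈ S}

/-- The property `f` tells `H` from `H` with a complete graph on `A` added, for every subgraph
`H` of `G`. -/
def Detects {n : ℕ} (f : SimpleGraph (Fin n) → Prop) (G : SimpleGraph (Fin n))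
    (A : Finset (Fin n)) : Prop :=
  ∀ H ≤ G, ¬ (f H ↔ f (H ⊔ SimpleGraph.fromEdgeSet (A.sym2 : Set (Sym2 (Fin n)))))

end Pool.Agent.H25.PC
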