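import Pool.Agent.H25.NP.Fin

/-!
Uniform labels of all pairs which extend the labels of edge-disjoint blocks.
-/

namespace Pool.Agent.H25.PC

open Finset
open Pool.Agent.H25.NM

set_option linter.unusedSectionVars false

section

variable {V : Type} [Fintype V] [DecidableEq V] {n J : ℕ}

/-- The coordinate that decides an edge: its place in a block, if it lies in one. -/
noncomputable def coord (φ : Fin J → V ↪ Fin n) (e : Sym2 (Fin n)) :
    (Fin J × Sym2 V) ⊕ Sym2 (Fin n) :=
  open Classical in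
  if h : ∃ p : Fin J × Sym2 V, Sym2.map (φ p.1) p.2 = e then Sum.inl h.choose else Sum.inr e

theorem coord_inl {φ : Fin J → V ↪ Fin n} {e : Sym2 (Fin n)} {p : Fin J × Sym2 V}
    (h : coord φ e = Sum.inl p) : Sym2.map (φ p.1) p.2 = e := by
  unfold coord at h
  split_ifs at h with h'
  · have := Sum.inl.inj h
    rw [← this]
    exact h'.choose_spec

theorem coord_inr {φ : Fin J → V ↪ Fin n} {e e' : Sym2 (Fin n)}
    (h : coord φ e = Sum.inr e') : e = e' := by
  unfold coord at h
  split_ifs at h with h'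
  exact Sum.inr.inj h

theorem coord_injective (φ : Fin J → V ↪ Fin n) : Function.Injective (coord φ) := by
  intro e e' h
  rcases hc : coord φ e' with p | a
  · rw [hc] at h
    exact (coord_inl h).symm.trans (coord_inl hc)
  · rw [hc] at h
    exact (coord_inr h).trans (coord_inr hc).symm

theorem coord_eq {φ : Fin J → V ↪ Fin n}
    (hφ : ∀ i j u v u' v', u ≠ v → φ i u = φ j u' → φ i v = φ j v' → i = j)
    {i : Fin J} {u v : V} (huv : u ≠ v) :
    coord φ s(φ i u, φ i v) = Sum.inl (i, s(u, v)) := by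
  classical
  have hex : ∃ p : Fin J × Sym2 V, Sym2.map (φ p.1) p.2 = s(φ i u, φ i v) :=
    ⟨(i, s(u, v)), by rw [Sym2.map_mk]⟩
  rcases hc : coord φ s(φ i u, φ i v) with p | a
  · have h1 := coord_inl hc
    have h2 := NP.nc_positions_le φ hφ s(φ i u, φ i v) (by
      rw [Sym2.mk_isDiag_iff]
      exact fun h => huv ((φ i).injective h))
    rw [nc_eq, Finset.card_le_one] at h2
    have h3 := h2 p (Finset.mem_filter.2 ⟨Finset.mem_univ _, h1⟩) (i, s(u, v))
      (Finset.mem_filter.2 ⟨Finset.mem_univ _, by rw [Sym2.map_mk]⟩)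
    rw [h3]
  · unfold coord at hc
    rw [dif_pos hex] at hc
    exact absurd hc (by simp)

/-- The value of a coordinate. -/
def val {A₀ : Type} (x : (Fin J → Sym2 V → A₀) × (Sym2 (Fin n) → A₀)) :
    (Fin J × Sym2 V) ⊕ Sym2 (Fin n) → A₀
  | Sum.inl p => x.1 p.1 p.2
  | Sum.inr e => x.2 e

/-- The labels of all pairs. -/
noncomputable def lab {A₀ : Type} (φ : Fin J → V ↪ Fin n)
    (x : (Fin J → Sym2 V → A₀) × (Sym2 (Fin n) → A₀)) : Sym2 (Fin n) → A₀ :=
  fun e => val x (coord φ e)

theorem pre_le_lab {A₀ : Type} (S₀ : Finset A₀) {φ : Fin J → V ↪ Fin n}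
    (hφ : ∀ i j u v u' v', u ≠ v → φ i u = φ j u' → φ i v = φ j v' → i = j)
    (x : (Fin J → Sym2 V → A₀) × (Sym2 (Fin n) → A₀)) (j : ℕ) :
    pre φ (gr S₀) x.1 j ≤ gr S₀ (lab φ x) := by
  intro a b hab
  obtain ⟨i, _, h⟩ := hab
  rw [SimpleGraph.map_adj] at h
  obtain ⟨u, v, huv, rfl, rfl⟩ := h
  refine ⟨fun h => huv.1 ((φ i).injective h), ?_⟩
  show val x (coord φ s(φ i u, φ i v)) ∈ S₀
  rw [coord_eq hφ huv.1]
  exact huv.2

/-- The coordinates as one function. -/
def spaceEquiv (V A₀ : Type) (n J : ℕ) :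
    (Fin J → Sym2 V → A₀) × (Sym2 (Fin n) → A₀) ≃
      ((Fin J × Sym2 V) ⊕ Sym2 (Fin n) → A₀) :=
  (Equiv.prodCongr (Equiv.curry (Fin J) (Sym2 V) A₀).symm (Equiv.refl _)).trans
    (Equiv.sumArrowEquivProdArrow _ _ _).symm

theorem spaceEquiv_apply {A₀ : Type} (x : (Fin J → Sym2 V → A₀) × (Sym2 (Fin n) → A₀)) :
    spaceEquiv V A₀ n J x = val x := by
  funext i
  rcases i with p | e
  · rfl
  · rfl

/-- **The labels are uniform.** -/
theorem nc_lab {A₀ : Type} [Fintype A₀] [DecidableEq A₀] (φ : Fin J → V ↪ Fin n)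
    (y : Sym2 (Fin n) → A₀) :
    nc (fun x : (Fin J → Sym2 V → A₀) × (Sym2 (Fin n) → A₀) => lab φ x = y) *
      Fintype.card (Sym2 (Fin n) → A₀) =
      Fintype.card ((Fin J → Sym2 V → A₀) × (Sym2 (Fin n) → A₀)) := by
  classical
  rcases isEmpty_or_nonempty A₀ with hA | ⟨⟨a₀⟩⟩
  · have h0 : IsEmpty (Sym2 (Fin n)) := ⟨fun e => hA.false (y e)⟩
    have h1 : ∀ x : (Fin J → Sym2 V → A₀) × (Sym2 (Fin n) → A₀), lab φ x = y := fun x =>
      funext fun e => h0.elim e
    rw [nc_true h1]
    have h2 : Fintype.card (Sym2 (Fin n) → A₀) = 1 := by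
      rw [Fintype.card_fun, Fintype.card_eq_zero (α := Sym2 (Fin n)), pow_zero]
    rw [h2, mul_one]
  let c : (Fin J × Sym2 V) ⊕ Sym2 (Fin n) → A₀ := fun i =>
    if h : ∃ e, coord φ e = i then y h.choose else a₀
  have hc : ∀ e, c (coord φ e) = y e := by
    intro e
    have hex : ∃ e', coord φ e' = coord φ e := ⟨e, rfl⟩
    show (if h : ∃ e', coord φ e' = coord φ e then y h.choose else a₀) = y e
    rw [dif_pos hex]
    exact congrArg y (coord_injective φ hex.choose_spec)
  have h1 := nc_forall_eq ((univ : Finset (Sym2 (Fin n))).image (coord φ)) c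
  rw [Finset.card_image_of_injective _ (coord_injective φ), Finset.card_univ,
    ← Fintype.card_fun, ← Fintype.card_fun] at h1
  have h2 := nc_equiv (spaceEquiv V A₀ n J) fun z : (Fin J × Sym2 V) ⊕ Sym2 (Fin n) → A₀ =>
    ∀ i ∈ (univ : Finset (Sym2 (Fin n))).image (coord φ), z i = c i
  have h3 : Fintype.card ((Fin J → Sym2 V → A₀) × (Sym2 (Fin n) → A₀)) =
      Fintype.card ((Fin J × Sym2 V) ⊕ Sym2 (Fin n) → A₀) :=
    Fintype.card_congr (spaceEquiv V A₀ n J)
  rw [h3, ← h1, ← h2]
  refine congrArg (· * Fintype.card (Sym2 (Fin n) → A₀)) (nc_congr fun x => ?_)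
  rw [spaceEquiv_apply]
  constructor
  · rintro rfl i hi
    obtain ⟨e, _, rfl⟩ := Finset.mem_image.1 hi
    rw [hc]
    rfl
  · intro h
    funext e
    rw [← hc e]
    exact h _ (Finset.mem_image_of_mem _ (Finset.mem_univ e))

/-- Counting with a fixed set. -/
theorem nc_lab_mem {A₀ : Type} [Fintype A₀] [DecidableEq A₀] (φ : Fin J → V ↪ Fin n)
    (W : Finset ((Sym2 (Fin n) → A₀) × Finset (Fin n))) (A : Finset (Fin n)) :
    nc (fun x : (Fin J → Sym2 V → A₀) × (Sym2 (Fin n) → A₀) => (lab φ x, A) ∈ W) *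
      Fintype.card (Sym2 (Fin n) → A₀) =
      Fintype.card ((Fin J → Sym2 V → A₀) × (Sym2 (Fin n) → A₀)) *
        (W.filter fun y => y.2 = A).card := by
  classical
  have h1 : nc (fun x : (Fin J → Sym2 V → A₀) × (Sym2 (Fin n) → A₀) =>
      (lab φ x, A) ∈ W) = ∑ y ∈ W.filter (fun y => y.2 = A),
      nc (fun x : (Fin J → Sym2 V → A₀) × (Sym2 (Fin n) → A₀) => lab φ x = y.1) := by
    rw [nc_eq, Finset.card_eq_sum_card_fiberwise (f := fun x => (lab φ x, A))
      (t := W.filter fun y => y.2 = A)]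
    · refine Finset.sum_congr rfl fun y hy => ?_
      obtain ⟨hy1, hy2⟩ := Finset.mem_filter.1 hy
      rw [nc_eq]
      congr 1
      ext x
      simp only [Finset.mem_filter, Finset.mem_univ, true_and]
      constructor
      · rintro ⟨_, h⟩
        exact (Prod.ext_iff.1 h).1
      · intro h
        have h2 : (lab φ x, A) = y := Prod.ext h hy2.symm
        exact ⟨by rw [h2]; exact hy1, h2⟩
    · intro x hx
      exact Finset.mem_coe.2 (Finset.mem_filter.2
        ⟨(Finset.mem_filter.1 (Finset.mem_coe.1 hx)).2, rfl⟩)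
  rw [h1, Finset.sum_mul, Finset.sum_congr rfl fun y _ => nc_lab φ y.1, Finset.sum_const,
    smul_eq_mul, mul_comm]

end

/-- Any two sets of the same size are related by a permutation. -/
theorem exists_perm {n : ℕ} {A B : Finset (Fin n)} (h : A.card = B.card) :
    ∃ σ : Equiv.Perm (Fin n), A.map σ.toEmbedding = B := by
  classical
  let e : {x // x ∈ A} ≃ {x // x ∈ B} := Finset.equivOfCardEq h
  refine ⟨e.extendSubtype, ?_⟩
  refine Finset.eq_of_subset_of_card_le ?_ (by rw [Finset.card_map, h])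
  intro x hx
  obtain ⟨a, ha, rfl⟩ := Finset.mem_map.1 hx
  exact e.extendSubtype_mem a ha

/-- The number of permutations that map one set to another. -/
theorem nc_perm {n k : ℕ} {A B : Finset (Fin n)} (hA : A.card = k) (hB : B.card = k) :
    nc (fun π : Equiv.Perm (Fin n) => A.map π.toEmbedding = B) * n.choose k =
      Fintype.card (Equiv.Perm (Fin n)) := by
  classical
  have h1 : ∀ B' ∈ powersetCard k (univ : Finset (Fin n)),
      nc (fun π : Equiv.Perm (Fin n) => A.map π.toEmbedding = B') =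
      nc (fun π : Equiv.Perm (Fin n) => A.map π.toEmbedding = B) := by
    intro B' hB'
    obtain ⟨σ, hσ⟩ := exists_perm (hB.trans (Finset.mem_powersetCard.1 hB').2.symm)
    have h2 := nc_equiv (Equiv.mulLeft σ) fun π : Equiv.Perm (Fin n) =>
      A.map π.toEmbedding = B'
    rw [← h2]
    refine nc_congr fun π => ?_
    have h3 : A.map ((Equiv.mulLeft σ) π).toEmbedding =
        (A.map π.toEmbedding).map σ.toEmbedding := by
      rw [Finset.map_map]
      rfl
    rw [h3, ← hσ]
    exact Finset.map_inj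
  have h2 : Fintype.card (Equiv.Perm (Fin n)) = ∑ B' ∈ powersetCard k (univ : Finset (Fin n)),
      nc (fun π : Equiv.Perm (Fin n) => A.map π.toEmbedding = B') := by
    rw [← Finset.card_univ, Finset.card_eq_sum_card_fiberwise
      (f := fun π : Equiv.Perm (Fin n) => A.map π.toEmbedding)
      (t := powersetCard k (univ : Finset (Fin n)))]
    · refine Finset.sum_congr rfl fun B' _ => ?_
      rw [nc_eq]
    · intro π _
      exact Finset.mem_coe.2 (Finset.mem_powersetCard.2
        ⟨Finset.subset_univ _, by rw [Finset.card_map, hA]⟩)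
  rw [h2, Finset.sum_congr rfl h1, Finset.sum_const, Finset.card_powersetCard,
    Finset.card_univ, Fintype.card_fin, smul_eq_mul, mul_comm]

section

variable {V A₀ ι : Type} [Fintype V] [DecidableEq V] [Fintype A₀] [DecidableEq A₀] [Fintype ι]
  {n J : ℕ}

/-- **Averaging.** Some relabelling of the blocks sees a fair share of the family `W`. -/
theorem exists_relabel {k : ℕ} (φ : Fin J → V ↪ Fin n) (S : ι → Finset (Fin n))
    (hS : ∀ i, (S i).card = k) (W : Finset ((Sym2 (Fin n) → A₀) × Finset (Fin n)))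
    (hW : ∀ y ∈ W, y.2.card = k) :
    ∃ π : Equiv.Perm (Fin n),
      Fintype.card ((Fin J → Sym2 V → A₀) × (Sym2 (Fin n) → A₀)) *
        (Fintype.card ι * W.card) ≤
      (Fintype.card (Sym2 (Fin n) → A₀) * n.choose k) *
        ∑ i : ι, nc (fun x : (Fin J → Sym2 V → A₀) × (Sym2 (Fin n) → A₀) =>
          (lab (fun j => (φ j).trans π.toEmbedding) x, (S i).map π.toEmbedding) ∈ W) := by
  classical
  set K := Fintype.card ((Fin J → Sym2 V → A₀) × (Sym2 (Fin n) → A₀)) with hK
  by_contra hcon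
  push Not at hcon
  have h1 : ∑ π : Equiv.Perm (Fin n), (Fintype.card (Sym2 (Fin n) → A₀) * n.choose k) *
        ∑ i : ι, nc (fun x : (Fin J → Sym2 V → A₀) × (Sym2 (Fin n) → A₀) =>
          (lab (fun j => (φ j).trans π.toEmbedding) x, (S i).map π.toEmbedding) ∈ W) <
      ∑ _π : Equiv.Perm (Fin n), K * (Fintype.card ι * W.card) :=
    Finset.sum_lt_sum_of_nonempty Finset.univ_nonempty fun π _ => hcon π
  have h2 : ∑ π : Equiv.Perm (Fin n), (Fintype.card (Sym2 (Fin n) → A₀) * n.choose k) *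
        ∑ i : ι, nc (fun x : (Fin J → Sym2 V → A₀) × (Sym2 (Fin n) → A₀) =>
          (lab (fun j => (φ j).trans π.toEmbedding) x, (S i).map π.toEmbedding) ∈ W) =
      n.choose k * (K * ∑ i : ι, ∑ π : Equiv.Perm (Fin n),
        (W.filter fun y => y.2 = (S i).map π.toEmbedding).card) := by
    rw [Finset.sum_comm, Finset.mul_sum, Finset.mul_sum]
    refine Finset.sum_congr rfl fun π _ => ?_
    have h8 : (∑ i : ι, nc (fun x : (Fin J → Sym2 V → A₀) × (Sym2 (Fin n) → A₀) =>
          (lab (fun j => (φ j).trans π.toEmbedding) x, (S i).map π.toEmbedding) ∈ W)) *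
          Fintype.card (Sym2 (Fin n) → A₀) =
        K * ∑ i : ι, (W.filter fun y => y.2 = (S i).map π.toEmbedding).card := by
      rw [Finset.sum_mul, Finset.mul_sum]
      exact Finset.sum_congr rfl fun i _ => nc_lab_mem _ W _
    rw [← h8]
    ring
  have h3 : ∀ i : ι, ∑ π : Equiv.Perm (Fin n),
      (W.filter fun y => y.2 = (S i).map π.toEmbedding).card =
      ∑ y ∈ W, nc (fun π : Equiv.Perm (Fin n) => (S i).map π.toEmbedding = y.2) := by
    intro i
    have h4 : ∀ π : Equiv.Perm (Fin n), (W.filter fun y => y.2 = (S i).map π.toEmbedding).card =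
        ∑ y ∈ W, if (S i).map π.toEmbedding = y.2 then 1 else 0 := by
      intro π
      rw [Finset.card_eq_sum_ones, Finset.sum_filter]
      refine Finset.sum_congr rfl fun y _ => ?_
      by_cases h : y.2 = (S i).map π.toEmbedding
      · rw [if_pos h, if_pos h.symm]
      · rw [if_neg h, if_neg fun h' => h h'.symm]
    rw [Finset.sum_congr rfl fun π _ => h4 π, Finset.sum_comm]
    refine Finset.sum_congr rfl fun y _ => ?_
    rw [nc_eq_sum_nat]
  have h5 : n.choose k * ∑ i : ι, ∑ π : Equiv.Perm (Fin n),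
        (W.filter fun y => y.2 = (S i).map π.toEmbedding).card =
      Fintype.card (Equiv.Perm (Fin n)) * (Fintype.card ι * W.card) := by
    rw [Finset.sum_congr rfl fun i _ => h3 i, Finset.mul_sum]
    have h6 : ∀ i : ι, n.choose k * ∑ y ∈ W,
        nc (fun π : Equiv.Perm (Fin n) => (S i).map π.toEmbedding = y.2) =
        Fintype.card (Equiv.Perm (Fin n)) * W.card := by
      intro i
      rw [Finset.mul_sum]
      rw [Finset.sum_congr rfl fun y hy => by
        rw [mul_comm, nc_perm (hS i) (hW y hy)]]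
      rw [Finset.sum_const, smul_eq_mul, mul_comm]
    rw [Finset.sum_congr rfl fun i _ => h6 i, Finset.sum_const, smul_eq_mul, Finset.card_univ]
    ring
  rw [h2, Finset.sum_const, smul_eq_mul, Finset.card_univ] at h1
  have h7 : n.choose k * (K * ∑ i : ι, ∑ π : Equiv.Perm (Fin n),
        (W.filter fun y => y.2 = (S i).map π.toEmbedding).card) =
      Fintype.card (Equiv.Perm (Fin n)) * (K * (Fintype.card ι * W.card)) := by
    calc _ = K * (n.choose k * ∑ i : ι, ∑ π : Equiv.Perm (Fin n),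
        (W.filter fun y => y.2 = (S i).map π.toEmbedding).card) := by ring
      _ = _ := by
          rw [h5]
          ring
  rw [h7] at h1
  exact lt_irrefl _ h1

end

end Pool.Agent.H25.PC
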