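import Pool.Agent.H25.PC.Hyp
import Pool.Agent.H25.PC.Unif
import Pool.Agent.H25.PC.Avg

/-!
The finite form of the bound for planted cliques in random graphs.
-/

namespace Pool.Agent.H25.PC

open Finset
open Pool.Agent.H25.NM Pool.Agent.H25.NP

set_option linter.unusedSectionVars false

theorem cq_map {V : Type} {n : ℕ} (φ : V ↪ Fin n) (A : Finset V) :
    (cq A).map φ = cq (A.map φ) := by
  ext x y
  rw [SimpleGraph.map_adj]
  constructor
  · rintro ⟨u, v, huv, rfl, rfl⟩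
    exact ⟨fun h => huv.1 (φ.injective h), Finset.mem_map_of_mem _ huv.2.1,
      Finset.mem_map_of_mem _ huv.2.2⟩
  · rintro ⟨hxy, hx, hy⟩
    obtain ⟨u, hu, rfl⟩ := Finset.mem_map.1 hx
    obtain ⟨v, hv, rfl⟩ := Finset.mem_map.1 hy
    exact ⟨u, v, ⟨fun h => hxy (by rw [h]), hu, hv⟩, rfl, rfl⟩

section

variable {A₀ : Type} [Fintype A₀] [DecidableEq A₀] [Nonempty A₀] {S₀ : Finset A₀}
variable {k w n s m M : ℕ} {N : ℕ → ℕ → ℝ} {η : ℝ}

/-- **Finite form.** -/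
theorem pc_fin {q : ℕ} (hB0 : BlockHyp (gr S₀ : (Sym2 (Fin k × Fin w) → A₀) →
      SimpleGraph (Fin k × Fin w)) (tr : (Fin k → Fin w) → Finset (Fin k × Fin w)) M m w N η)
    (hq : q.Prime) (hm : 2 ≤ m) (hV : k * w ≤ q) (hn : k * w * q ≤ n)
    (he1 : (2 * (q ^ 2 * ((s + 1) * (s + 2)) * ((m + 1) ^ 2 * 2 ^ m)) : ℝ) * η ≤ 1)
    (he2 : 2 * (q ^ 2 * ((s + 1) * (s + 2)) * (k * w + 1) ^ m) ≤ M)
    (C : Circuit n s) (out : Fin s) (W : Finset ((Sym2 (Fin n) → A₀) × Finset (Fin n)))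
    (hW : ∀ y ∈ W, y.2.card = k)
    (hWC : ∀ y ∈ W, ∀ H ≤ gr S₀ y.1, ¬ (C.fn out H ↔ C.fn out (H ⊔ cq y.2)))
    {B : ℕ} (hB : ∀ (J : ℕ) (x : ℕ → SimpleGraph (Fin n)), Monotone x →
      nc (fun j : Fin J => ∃ i ∈ C.watched, ¬ (C.fn i (x j.1) ↔ C.fn i (x (j.1 + 1)))) ≤ B) :
    q ^ 2 * W.card ≤ (4 * B + 3) * (Fintype.card (Sym2 (Fin n) → A₀) * n.choose k) := by
  classical
  have hVc : Fintype.card (Fin k × Fin w) = k * w := by
    rw [Fintype.card_prod, Fintype.card_fin, Fintype.card_fin]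
  obtain ⟨φ, hφ⟩ := NM.exists_blocks (V := Fin k × Fin w) (n := n) hq (by rw [hVc]; exact hV)
    (by rw [hVc]; exact hn)
  have : Nonempty (Fin w) := ⟨⟨0, hB0.hw⟩⟩
  -- relabel the blocks
  obtain ⟨π, hπ⟩ := exists_relabel (k := k) φ
    (fun i : Fin (q ^ 2) × (Fin k → Fin w) => (tr i.2).map (φ i.1))
    (fun i => by rw [Finset.card_map, card_tr]) W hW
  set ψ : Fin (q ^ 2) → Fin k × Fin w ↪ Fin n := fun j => (φ j).trans π.toEmbedding with hψ
  have hψd : ∀ i j u v u' v', u ≠ v → ψ i u = ψ j u' → ψ i v = ψ j v' → i = j := by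
    intro i j u v u' v' huv h1 h2
    exact hφ i j u v u' v' huv (π.injective h1) (π.injective h2)
  -- the detectors
  set I : Finset (Fin s) := insert out C.watched with hI
  choose F hF1 hF2 hF3 using C.exists_detector I (Finset.subset_insert _ _)
  set s' : ℕ := (s + 1) * (s + 2) with hs'
  set ε : ℝ := s' * ((m + 1) ^ 2 * 2 ^ m * η + small (Fin k × Fin w) m / M)
    with hε
  have hmain := chain_avg (φ := ψ) (ε := ε)
    (fun F hF => hB0.main hm hF) hF1 (a := 2 * B + 1) (fun ω => by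
      have h1 := out_changes C out (X := fun j => pre ψ (gr S₀) ω j)
        (fun _ _ h => pre_mono ω h) (q ^ 2)
      have h2 := hB (q ^ 2) (fun j => pre ψ (gr S₀) ω j) (fun _ _ h => pre_mono ω h)
      refine le_trans (nc_mono fun j hj => ?_) (h1.trans (by omega))
      exact (hF3 _ _ (pre_mono ω (Nat.le_succ j.1))).1 hj)
  -- the error term
  have hM0 : (0 : ℝ) < M := by exact_mod_cast hB0.hM
  have hJε : ((q ^ 2 : ℕ) : ℝ) * ε ≤ 1 := by
    rw [hε]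
    have g1 : ((q ^ 2 : ℕ) : ℝ) * (s' * ((m + 1) ^ 2 * 2 ^ m * η)) ≤ 1 / 2 := by
      rw [hs']
      push_cast at he1 ⊢
      linarith
    have g2 : ((q ^ 2 : ℕ) : ℝ) * (s' * (small (Fin k × Fin w) m / (M : ℝ))) ≤
        1 / 2 := by
      have e1 : ((q ^ 2 : ℕ) : ℝ) * (s' * (small (Fin k × Fin w) m / (M : ℝ))) =
          (2 * ((q ^ 2 : ℕ) : ℝ) * s' * small (Fin k × Fin w) m) / (M : ℝ) / 2 := by
        ring
      rw [e1]
      have e2 : (2 * ((q ^ 2 : ℕ) : ℝ) * s' * small (Fin k × Fin w) m) / (M : ℝ) ≤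
          1 := by
        rw [div_le_one hM0]
        have e3 := small_le (Fin k × Fin w) m
        rw [hVc] at e3
        have e4 : 2 * q ^ 2 * s' * small (Fin k × Fin w) m ≤ M := by
          refine le_trans ?_ he2
          calc 2 * q ^ 2 * s' * small (Fin k × Fin w) m ≤ 2 * q ^ 2 * s' * (k * w + 1) ^ m :=
                Nat.mul_le_mul_left _ e3
            _ = _ := by ring
        exact_mod_cast e4
      linarith
    have g3 : ((q ^ 2 : ℕ) : ℝ) * (s' * ((m + 1) ^ 2 * 2 ^ m * η +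
        small (Fin k × Fin w) m / (M : ℝ))) =
        ((q ^ 2 : ℕ) : ℝ) * (s' * ((m + 1) ^ 2 * 2 ^ m * η)) +
        ((q ^ 2 : ℕ) : ℝ) * (s' * (small (Fin k × Fin w) m / (M : ℝ))) := by
      ring
    rw [g3]
    linarith
  set Ω := Sym2 (Fin k × Fin w) → A₀ with hΩ
  set K₁ := Fintype.card (Fin (q ^ 2) → Ω) with hK₁
  set K₂ := Fintype.card (Sym2 (Fin n) → A₀) with hK₂
  set P₀ := Fintype.card (Fin k → Fin w) with hP₀
  have hK₁0 : 0 < K₁ := Fintype.card_pos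
  have hK₂0 : 0 < K₂ := Fintype.card_pos
  have hP₀0 : 0 < P₀ := Fintype.card_pos
  -- from the family to the detectors
  have hsum : ∑ i : Fin (q ^ 2) × (Fin k → Fin w),
      nc (fun x : (Fin (q ^ 2) → Ω) × (Sym2 (Fin n) → A₀) =>
          (lab ψ x, ((tr i.2).map (φ i.1)).map π.toEmbedding) ∈ W) ≤
      K₂ * ∑ j : Fin (q ^ 2), nc (fun x : (Fin k → Fin w) × (Fin (q ^ 2) → Ω) =>
        F (pre ψ (gr S₀) x.2 j.1)
          (pre ψ (gr S₀) x.2 j.1 ⊔ (cq (tr x.1)).map (ψ j))) := by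
    rw [Fintype.sum_prod_type, Finset.mul_sum]
    refine Finset.sum_le_sum fun j _ => ?_
    have h1 : ∀ p : Fin k → Fin w, nc (fun x : (Fin (q ^ 2) → Ω) × (Sym2 (Fin n) → A₀) =>
          (lab ψ x, ((tr p).map (φ j)).map π.toEmbedding) ∈ W) ≤
        nc (fun ω : Fin (q ^ 2) → Ω => F (pre ψ (gr S₀) ω j.1)
          (pre ψ (gr S₀) ω j.1 ⊔ (cq (tr p)).map (ψ j))) * K₂ := by
      intro p
      have h2 := nc_prod_and (fun ω : Fin (q ^ 2) → Ω => F (pre ψ (gr S₀) ω j.1)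
          (pre ψ (gr S₀) ω j.1 ⊔ (cq (tr p)).map (ψ j)))
          fun _ : Sym2 (Fin n) → A₀ => True
      rw [nc_true (α := Sym2 (Fin n) → A₀) fun _ => trivial] at h2
      rw [hK₂, ← h2]
      refine nc_mono fun x hx => ⟨?_, trivial⟩
      rw [hF3 _ _ le_sup_left]
      refine ⟨out, Finset.mem_insert_self _ _, ?_⟩
      have h3 := hWC _ hx (pre ψ (gr S₀) x.1 j.1) (pre_le_lab S₀ hψd x j.1)
      have h4 : (cq (tr p)).map (ψ j) = cq (((tr p).map (φ j)).map π.toEmbedding) := by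
        rw [cq_map, Finset.map_map]
      rw [h4]
      exact h3
    refine (Finset.sum_le_sum fun p _ => h1 p).trans (le_of_eq ?_)
    rw [← Finset.sum_mul, mul_comm]
    refine congrArg (K₂ * ·) ?_
    exact (nc_prod fun (p : Fin k → Fin w) (ω : Fin (q ^ 2) → Ω) =>
      F (pre ψ (gr S₀) ω j.1)
          (pre ψ (gr S₀) ω j.1 ⊔ (cq (tr p)).map (ψ j))).symm
  have hmain2 : (∑ j : Fin (q ^ 2), nc (fun x : (Fin k → Fin w) × (Fin (q ^ 2) → Ω) =>
        F (pre ψ (gr S₀) x.2 j.1)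
          (pre ψ (gr S₀) x.2 j.1 ⊔ (cq (tr x.1)).map (ψ j)))) ≤
      (4 * B + 3) * (P₀ * K₁) := by
    have h1 : ((∑ j : Fin (q ^ 2), nc (fun x : (Fin k → Fin w) × (Fin (q ^ 2) → Ω) =>
        F (pre ψ (gr S₀) x.2 j.1)
          (pre ψ (gr S₀) x.2 j.1 ⊔ (cq (tr x.1)).map (ψ j))) : ℕ) : ℝ) ≤
        (((4 * B + 3) * (P₀ * K₁) : ℕ) : ℝ) := by
      push_cast
      refine hmain.trans ?_
      refine mul_le_mul_of_nonneg_right ?_ (by positivity)
      push_cast at hJε ⊢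
      linarith
    exact_mod_cast h1
  have hcard : Fintype.card ((Fin (q ^ 2) → Ω) × (Sym2 (Fin n) → A₀)) = K₁ * K₂ :=
    Fintype.card_prod _ _
  have hι : Fintype.card (Fin (q ^ 2) × (Fin k → Fin w)) = q ^ 2 * P₀ := by
    rw [Fintype.card_prod, Fintype.card_fin]
  rw [hcard, hι] at hπ
  have hfin := hπ.trans (Nat.mul_le_mul_left _ (hsum.trans (Nat.mul_le_mul_left _ hmain2)))
  have hpos : 0 < K₁ * K₂ * P₀ := by positivity
  refine Nat.le_of_mul_le_mul_left ?_ hpos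
  calc K₁ * K₂ * P₀ * (q ^ 2 * W.card) = K₁ * K₂ * (q ^ 2 * P₀ * W.card) := by ring
    _ ≤ K₂ * n.choose k * (K₂ * ((4 * B + 3) * (P₀ * K₁))) := hfin
    _ = _ := by ring

/-- **General form.** -/
theorem main_gen (hB0 : BlockHyp (gr S₀ : (Sym2 (Fin k × Fin w) → A₀) →
      SimpleGraph (Fin k × Fin w)) (tr : (Fin k → Fin w) → Finset (Fin k × Fin w)) M m w N η)
    (hm : 2 ≤ m) (hk : 1 ≤ k) (hkn : k ≤ n) (hn : 4 * (k * w) ^ 2 ≤ n)
    (he1 : (2 * (n ^ 2 * ((s + 1) * (s + 2)) * ((m + 1) ^ 2 * 2 ^ m)) : ℝ) * η ≤ 1)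
    (he2 : 2 * (n ^ 2 * ((s + 1) * (s + 2)) * (k * w + 1) ^ m) ≤ M)
    (C : Circuit n s) (out : Fin s) (W : Finset ((Sym2 (Fin n) → A₀) × Finset (Fin n)))
    (hW : ∀ y ∈ W, y.2.card = k)
    (hWC : ∀ y ∈ W, ∀ H ≤ gr S₀ y.1, ¬ (C.fn out H ↔ C.fn out (H ⊔ cq y.2))) :
    ∃ A : ℕ, n ^ 2 * W.card ≤ 16 * (k * w) ^ 2 * (A + 1) *
        (Fintype.card (Sym2 (Fin n) → A₀) * n.choose k) ∧
      ∃ y : ℕ → SimpleGraph (Fin n), Monotone y ∧
        ∀ a < A, ∃ i ∈ C.watched, ¬ (C.fn i (y a) ↔ C.fn i (y (a + 1))) := by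
  classical
  set v : ℕ := k * w with hv
  set D : ℕ := Fintype.card (Sym2 (Fin n) → A₀) * n.choose k with hD
  have hv1 : 1 ≤ v := by
    have := Nat.mul_le_mul hk (show 1 ≤ w from hB0.hw)
    omega
  have hD1 : 1 ≤ D :=
    Nat.one_le_iff_ne_zero.2 (Nat.mul_ne_zero Fintype.card_ne_zero (Nat.choose_pos hkn).ne')
  -- the least number of changes that is compatible with the bound
  have hex : ∃ A : ℕ, n ^ 2 * W.card ≤ 16 * v ^ 2 * (A + 1) * D := by
    refine ⟨n ^ 2 * W.card, ?_⟩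
    have h1 : 1 ≤ 16 * v ^ 2 := by
      have : 1 ≤ v ^ 2 := Nat.one_le_pow _ _ hv1
      omega
    calc n ^ 2 * W.card ≤ 1 * (n ^ 2 * W.card + 1) * 1 := by omega
      _ ≤ 16 * v ^ 2 * (n ^ 2 * W.card + 1) * D :=
          Nat.mul_le_mul (Nat.mul_le_mul_right _ h1) hD1
  refine ⟨Nat.find hex, Nat.find_spec hex, ?_⟩
  rcases Nat.eq_zero_or_pos (Nat.find hex) with h0 | h0
  · rw [h0]
    exact ⟨fun _ => ⊥, fun _ _ _ => le_rfl, fun a ha => by omega⟩
  obtain ⟨B, hB⟩ : ∃ B, Nat.find hex = B + 1 := ⟨Nat.find hex - 1, by omega⟩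
  by_contra hcon
  push Not at hcon
  refine Nat.find_min hex (m := B) (by omega) ?_
  rw [hB] at hcon
  -- parameters
  set N : ℕ := n / v with hN
  have hvN : v * N ≤ n := Nat.mul_div_le _ _
  have hvN2 : n < v * (N + 1) := Nat.lt_mul_div_succ _ (by omega)
  have hvv : v ^ 2 = v * v := sq v
  have hNpos : N / 2 ≠ 0 := by
    intro h0
    have h1 : N ≤ 1 := by omega
    have h2 : v * (N + 1) ≤ v * 2 := Nat.mul_le_mul_left _ (by omega)
    have h4 : v * 1 ≤ v * v := Nat.mul_le_mul_left _ hv1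
    omega
  obtain ⟨q, hq, hq1, hq2⟩ := Nat.exists_prime_lt_and_le_two_mul (N / 2) hNpos
  have hqN : q ≤ N := by omega
  have hvq : v * q ≤ n := (Nat.mul_le_mul_left _ hqN).trans hvN
  have hqv : n < 2 * (q * v) := by
    have h1 : v * (N + 1) ≤ v * (2 * q) := Nat.mul_le_mul_left _ (by omega)
    have h2 : v * (2 * q) = 2 * (q * v) := by ring
    omega
  have hvleq : v ≤ q := by
    by_contra hcon'
    push Not at hcon'
    have h1 : q * v ≤ v * v := Nat.mul_le_mul_right _ hcon'.le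
    omega
  have hqn : q ≤ n := by
    have : 1 * q ≤ v * q := Nat.mul_le_mul_right _ hv1
    omega
  have hqn2 : q ^ 2 ≤ n ^ 2 := Nat.pow_le_pow_left hqn 2
  have hchg : ∀ (J : ℕ) (x : ℕ → SimpleGraph (Fin n)), Monotone x →
      nc (fun j : Fin J => ∃ i ∈ C.watched, ¬ (C.fn i (x j.1) ↔ C.fn i (x (j.1 + 1)))) ≤ B := by
    intro J X hXm
    by_contra hcon'
    have hcon' := not_le.1 hcon'
    rw [nc_fin_eq J fun j => ∃ i ∈ C.watched, ¬ (C.fn i (X j) ↔ C.fn i (X (j + 1)))] at hcon'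
    obtain ⟨g, hg, _, _, hg3⟩ := exists_subchain C C.watched X
      (fun J => @Finset.filter _ (fun j => ∃ i ∈ C.watched,
        ¬ (C.fn i (X j) ↔ C.fn i (X (j + 1)))) (Classical.decPred _) (range J))
      (fun J => rfl) J
    obtain ⟨a, ha, h4⟩ := hcon (fun a => X (g a)) (fun a b hab => hXm (hg hab))
    obtain ⟨i, hi, hne⟩ := hg3 a (by omega)
    exact hne (h4 i hi)
  have hη := hB0.hη
  have he1' : (2 * (q ^ 2 * ((s + 1) * (s + 2)) * ((m + 1) ^ 2 * 2 ^ m)) : ℝ) * η ≤ 1 := by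
    refine le_trans (mul_le_mul_of_nonneg_right ?_ hη) he1
    have h1 : ((q : ℝ)) ^ 2 ≤ (n : ℝ) ^ 2 := by exact_mod_cast hqn2
    gcongr
  have he2' : 2 * (q ^ 2 * ((s + 1) * (s + 2)) * (k * w + 1) ^ m) ≤ M := by
    refine le_trans (Nat.mul_le_mul_left _ (Nat.mul_le_mul_right _
      (Nat.mul_le_mul_right _ hqn2))) he2
  have hfin := pc_fin (q := q) (n := n) (s := s) hB0 hq hm hvleq hvq he1' he2'
    C out W hW hWC (B := B) hchg
  rw [← hD] at hfin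
  -- conclusion
  have h1 : n ^ 2 ≤ (2 * (q * v)) ^ 2 := Nat.pow_le_pow_left hqv.le 2
  calc n ^ 2 * W.card ≤ (2 * (q * v)) ^ 2 * W.card := Nat.mul_le_mul_right _ h1
    _ = 4 * v ^ 2 * (q ^ 2 * W.card) := by ring
    _ ≤ 4 * v ^ 2 * ((4 * B + 3) * D) := Nat.mul_le_mul_left _ hfin
    _ ≤ 4 * v ^ 2 * ((4 * (B + 1)) * D) :=
        Nat.mul_le_mul_left _ (Nat.mul_le_mul_right _ (by omega))
    _ = 16 * v ^ 2 * (B + 1) * D := by ring

end

end Pool.Agent.H25.PC
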