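import Pool.Agent.H25.PC.Mins
import Pool.Agent.H25.NM.Block

/-!
Random graphs of density `1 / Q` satisfy the hypotheses of the block lemma.
-/

namespace Pool.Agent.H25.PC

open Finset
open Pool.Agent.H25.NM

set_option linter.unusedSectionVars false

theorem one_add_pow_le {m : ℕ} (hm : 1 ≤ m) : (1 + 1 / ((3 * m : ℕ) : ℝ)) ^ m ≤ 3 / 2 := by
  have hm0 : (0 : ℝ) < ((3 * m : ℕ) : ℝ) := by
    exact_mod_cast (by omega : 0 < 3 * m)
  have h1 : 1 + 1 / ((3 * m : ℕ) : ℝ) ≤ Real.exp (1 / ((3 * m : ℕ) : ℝ)) := by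
    rw [add_comm]
    exact Real.add_one_le_exp _
  have h2 : (1 + 1 / ((3 * m : ℕ) : ℝ)) ^ m ≤ Real.exp (1 / 3) := by
    calc (1 + 1 / ((3 * m : ℕ) : ℝ)) ^ m ≤ Real.exp (1 / ((3 * m : ℕ) : ℝ)) ^ m :=
          pow_le_pow_left₀ (by positivity) h1 m
      _ = Real.exp (1 / 3) := by
          rw [← Real.exp_nat_mul]
          congr 1
          have hm1 : (m : ℝ) ≠ 0 := by
            exact_mod_cast (by omega : m ≠ 0)
          push_cast
          field_simp
  refine h2.trans ?_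
  by_contra hcon
  push Not at hcon
  have h3 : (3 / 2 : ℝ) ^ 3 < Real.exp (1 / 3) ^ 3 :=
    pow_lt_pow_left₀ hcon (by norm_num) (by norm_num)
  have h4 : Real.exp (1 / 3) ^ 3 = Real.exp 1 := by
    rw [← Real.exp_nat_mul]
    congr 1
    norm_num
  rw [h4] at h3
  have h5 := Real.exp_one_lt_d9
  norm_num at h3
  linarith

theorem two_choose (b : ℕ) : 2 * b.choose 2 + b = b * b := by
  rw [Nat.choose_two_right, Nat.mul_div_cancel']
  · rcases b with _ | b
    · rfl
    · rw [Nat.add_sub_cancel]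
      ring
  · rcases Nat.even_or_odd b with h | h
    · exact Dvd.dvd.mul_right h.two_dvd _
    · obtain ⟨c, rfl⟩ := h
      exact Dvd.dvd.mul_left (by simp) _

/-- The exponent of two in the bound for pairs. -/
theorem expo {a j i m : ℕ} (ha : a ≤ m) (hj : j ≤ m) (hi : i ≤ j)
    (h : m < a + j - i) :
    a.choose 2 + (j.choose 2 - i.choose 2) + (m + 1) ^ 2 ≤ 2 * m * (a + j - i) := by
  have h1 := two_choose a
  have h2 := two_choose j
  have h3 := two_choose i
  have h4 := choose_two_mono hi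
  obtain ⟨d, rfl⟩ := Nat.exists_eq_add_of_le hi
  obtain ⟨u, hu⟩ : ∃ u, u = a + d := ⟨_, rfl⟩
  have h5 : a + (i + d) - i = u := by omega
  rw [h5] at h ⊢
  -- d (2 i + d) + a² - a - d + 2 (m+1)² ≤ 4 m u
  have h6 : 2 * ((i + d).choose 2 - i.choose 2) + d = d * (2 * i + d) := by
    have h7 : (i + d) * (i + d) = i * i + d * (2 * i + d) := by ring
    omega
  have h8 : a * a ≤ m * a := Nat.mul_le_mul_right a ha
  have h9 : d * (2 * i + d) ≤ d * (2 * m) := by
    rcases Nat.eq_zero_or_pos d with h0 | h0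
    · rw [h0]
      simp
    · refine Nat.mul_le_mul_left _ ?_
      omega
  have h10 : (m + 1) * (m + 1) ≤ (m + 1) * u := Nat.mul_le_mul_left _ h
  have h11 : (m + 1) ^ 2 = (m + 1) * (m + 1) := by ring
  have h12 : 2 * (a.choose 2 + ((i + d).choose 2 - i.choose 2) + (m + 1) ^ 2) ≤
      2 * (2 * m * u) := by
    rw [h11]
    subst hu
    -- 2 C(a,2) = a² - a ; 2(...) = d(2i+d) - d
    nlinarith
  omega

/-- The test graphs of density `1 / Q` satisfy the hypotheses of the block lemma. -/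
theorem blockHyp_one {A₀ : Type} [Fintype A₀] [DecidableEq A₀] (a₀ : A₀) {k w g Q : ℕ}
    [NeZero g] (hA : Fintype.card A₀ = Q) (hQ2 : 2 ≤ Q) (m : ℕ) (hm : 1 ≤ m)
    (hw : 3 * m * g * Q ^ (2 * m) ≤ w) :
    BlockHyp (gr {a₀} : (Sym2 (Fin k × Fin w) → A₀) →
      SimpleGraph (Fin k × Fin w)) (tr : (Fin k → Fin w) → Finset (Fin k × Fin w)) (3 ^ g)
      m w (fun b i => (((3 * m : ℕ) : ℝ) * g) ^ (b - i) * (Q : ℝ) ^ (b.choose 2 - i.choose 2))
      ((1 / Q : ℝ) ^ ((m + 1) ^ 2)) where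
  hM := by positivity
  hw := by
    have h1 : g ≠ 0 := NeZero.ne g
    have h2 : Q ≠ 0 := by omega
    have : 1 ≤ 3 * m * g * Q ^ (2 * m) := Nat.one_le_iff_ne_zero.2 (by positivity)
    omega
  hη := by positivity
  hP := fun T => by exact_mod_cast nc_subset_tr T
  hN := fun S hS b hb I => by
    have hΛ : (1 : ℝ) ≤ ((3 * m : ℕ) : ℝ) := by
      exact_mod_cast (by omega : 1 ≤ 3 * m)
    have h2 := card_mins_half (g := g) a₀ m hΛ (one_add_pow_le hm) S hS b hb I
    rw [hA] at h2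
    refine le_trans ?_ h2
    refine Nat.cast_le.2 (Finset.card_le_card fun T hT => ?_)
    simp only [Finset.mem_filter] at hT ⊢
    exact hT
  hQ := by
    intro T hT1 hTm
    have h1 := nc_forall_eq (A := A₀) (ed T) fun _ => a₀
    rw [hA, card_ed] at h1
    have h2 : nc (fun x : Sym2 (Fin k × Fin w) → A₀ => ∀ i ∈ ed T, x i = a₀) =
        nc (fun ω : Sym2 (Fin k × Fin w) → A₀ => cq T ≤ gr {a₀} ω) := by
      refine nc_congr fun ω => ?_
      constructor
      · intro h u v huv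
        exact ⟨huv.1, Finset.mem_singleton.2 (h s(u, v) (mem_ed.2 huv))⟩
      · intro h e he
        induction e using Sym2.ind with
        | _ u v => exact Finset.mem_singleton.1 (h (mem_ed.1 he)).2
    rw [h2] at h1
    have h3 : Fintype.card (Sym2 (Fin k × Fin w) → A₀) =
        Q ^ Fintype.card (Sym2 (Fin k × Fin w)) := by
      rw [Fintype.card_fun, hA]
    have h4 := two_choose T.card
    have h5 : (3 * m * g) ^ T.card * Q ^ (T.card.choose 2) * 2 ^ T.card *
        Q ^ (T.card.choose 2) ≤ w ^ T.card := by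
      calc (3 * m * g) ^ T.card * Q ^ (T.card.choose 2) * 2 ^ T.card * Q ^ (T.card.choose 2)
          ≤ (3 * m * g) ^ T.card * Q ^ (T.card.choose 2) * Q ^ T.card * Q ^ (T.card.choose 2) :=
            Nat.mul_le_mul_right _ (Nat.mul_le_mul_left _ (Nat.pow_le_pow_left hQ2 _))
        _ = (3 * m * g) ^ T.card * Q ^ (2 * T.card.choose 2 + T.card) := by
            rw [pow_add, two_mul, pow_add]
            ring
        _ ≤ (3 * m * g) ^ T.card * (Q ^ (2 * m)) ^ T.card := by
            refine Nat.mul_le_mul_left _ ?_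
            rw [h4, ← pow_mul]
            refine Nat.pow_le_pow_right (by omega) ?_
            have := Nat.mul_le_mul_right T.card hTm
            nlinarith
        _ = (3 * m * g * Q ^ (2 * m)) ^ T.card := by rw [mul_pow (3 * m * g)]
        _ ≤ w ^ T.card := Nat.pow_le_pow_left hw _
    have h6 : (3 * m * g) ^ T.card * Q ^ (T.card.choose 2) * 2 ^ T.card *
        Fintype.card (Sym2 (Fin k × Fin w) → A₀) ≤
        w ^ T.card * nc (fun ω : Sym2 (Fin k × Fin w) → A₀ => cq T ≤ gr {a₀} ω) := by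
      rw [h3, ← h1]
      calc (3 * m * g) ^ T.card * Q ^ (T.card.choose 2) * 2 ^ T.card *
            (nc (fun ω : Sym2 (Fin k × Fin w) → A₀ => cq T ≤ gr {a₀} ω) *
              Q ^ (T.card.choose 2))
          = ((3 * m * g) ^ T.card * Q ^ (T.card.choose 2) * 2 ^ T.card *
              Q ^ (T.card.choose 2)) *
            nc (fun ω : Sym2 (Fin k × Fin w) → A₀ => cq T ≤ gr {a₀} ω) := by ring
        _ ≤ _ := Nat.mul_le_mul_right _ h5
    have h7 : (Nat.choose 0 2) = 0 := rfl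
    simp only [Nat.sub_zero, h7]
    exact_mod_cast h6
  hE := by
    intro a ha j hj i hia hij hlt
    have hg0 : 0 < g := Nat.pos_of_ne_zero (NeZero.ne g)
    have hQ0 : (0 : ℝ) < Q := by
      exact_mod_cast (by omega : 0 < Q)
    have hQ1 : (1 : ℝ) ≤ Q := by
      exact_mod_cast (by omega : 1 ≤ Q)
    have h7 : (Nat.choose 0 2) = 0 := rfl
    simp only [Nat.sub_zero, h7]
    have hwR : (((3 * m : ℕ) : ℝ) * g) * (Q : ℝ) ^ (2 * m) ≤ w := by exact_mod_cast hw
    have hx : (0 : ℝ) ≤ ((3 * m : ℕ) : ℝ) * g := by positivity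
    have hex := expo ha hj hij hlt
    have e : a + (j - i) = a + j - i := by omega
    calc (((3 * m : ℕ) : ℝ) * g) ^ a * (Q : ℝ) ^ (a.choose 2) *
          ((((3 * m : ℕ) : ℝ) * g) ^ (j - i) * (Q : ℝ) ^ (j.choose 2 - i.choose 2))
        = (((3 * m : ℕ) : ℝ) * g) ^ (a + j - i) *
          (Q : ℝ) ^ (a.choose 2 + (j.choose 2 - i.choose 2)) := by
          rw [← e, pow_add, pow_add]
          ring
      _ = (((3 * m : ℕ) : ℝ) * g) ^ (a + j - i) * ((1 / Q : ℝ) ^ ((m + 1) ^ 2) *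
          (Q : ℝ) ^ (a.choose 2 + (j.choose 2 - i.choose 2) + (m + 1) ^ 2)) := by
          rw [pow_add (Q : ℝ) _ ((m + 1) ^ 2), one_div, inv_pow]
          field_simp
      _ ≤ (((3 * m : ℕ) : ℝ) * g) ^ (a + j - i) * ((1 / Q : ℝ) ^ ((m + 1) ^ 2) *
          (Q : ℝ) ^ (2 * m * (a + j - i))) := by
          gcongr
      _ = (1 / Q : ℝ) ^ ((m + 1) ^ 2) *
          ((((3 * m : ℕ) : ℝ) * g) * (Q : ℝ) ^ (2 * m)) ^ (a + j - i) := by
          rw [mul_pow _ ((Q : ℝ) ^ (2 * m)), ← pow_mul]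
          ring
      _ ≤ _ := by gcongr

end Pool.Agent.H25.PC
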