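import Pool.Agent.H25.PC.Main
import Pool.Agent.H25.PC.Defs

/-!
The theorem on planted cliques for all densities, and its corollaries.
-/

namespace Pool.Agent.H25.PC

open Finset
open Pool.Agent.H25.NM Pool.Agent.H25.NP

theorem labelled_eq {n Q : ℕ} (S : Finset (Fin Q)) (x : Sym2 (Fin n) → Fin Q) :
    labelled S x = gr S x := by
  ext u v
  unfold labelled
  rw [SimpleGraph.fromEdgeSet_adj]
  exact ⟨fun h => ⟨h.2, h.1⟩, fun h => ⟨h.2, h.1⟩⟩

theorem clique_eq {n : ℕ} (A : Finset (Fin n)) :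
    SimpleGraph.fromEdgeSet (A.sym2 : Set (Sym2 (Fin n))) = cq A := by
  ext u v
  rw [SimpleGraph.fromEdgeSet_adj, Finset.mem_coe, Finset.mk_mem_sym2_iff]
  exact ⟨fun h => ⟨h.2, h.1⟩, fun h => ⟨h.2, h.1⟩⟩

theorem detects_iff {n : ℕ} {f : SimpleGraph (Fin n) → Prop} {G : SimpleGraph (Fin n)}
    {A : Finset (Fin n)} : Detects f G A ↔ ∀ H ≤ G, ¬ (f H ↔ f (H ⊔ cq A)) := by
  unfold Detects
  rw [clique_eq]

/-- The two cases of the parameters. -/
def Params (L l k Q c v : ℕ) : Prop :=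
  (c = 1 ∧ 2 ≤ Q ∧ ∃ m, 2 ≤ m ∧ 2 ^ (2 * l + 2 * L + 3 * m + 4) ≤ Q ^ (m + 1) ^ 2 ∧
      v = 3 * k * m ^ 2 * L * Q ^ (2 * m)) ∨
    (c + 1 = Q ∧ 1 ≤ L ∧ L ≤ l ∧ 4 * l ^ 2 ≤ Q ∧ v = 512 * k * l ^ 2 * L)

/-- **Main theorem.** -/
theorem main_all {n L l k Q v s : ℕ} (S : Finset (Fin Q)) (hnL : n ≤ 2 ^ L)
    (hv : 4 * v ^ 2 ≤ n) (hp : Params L l k Q S.card v) (hs : s ≤ 2 ^ l) (C : Circuit n s)
    (out : Fin s) (W : Finset ((Sym2 (Fin n) → Fin Q) × Finset (Fin n)))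
    (hW : ∀ y ∈ W, y.2.card = k ∧ Detects (C.fn out) (labelled S y.1) y.2) :
    ∃ A : ℕ, n ^ 2 * W.card ≤ 16 * v ^ 2 * (A + 1) * (Q ^ (n + 1).choose 2 * n.choose k) ∧
      ∃ y : ℕ → SimpleGraph (Fin n), Monotone y ∧
        ∀ a < A, ∃ i ∈ C.watched, ¬ (C.fn i (y a) ↔ C.fn i (y (a + 1))) := by
  classical
  -- trivial cases
  rcases W.eq_empty_or_nonempty with hW0 | ⟨y₀, hy₀⟩
  · refine ⟨0, ?_, fun _ => ⊥, fun _ _ _ => le_rfl, fun a ha => by omega⟩
    rw [hW0, Finset.card_empty]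
    simp
  have hcard : Fintype.card (Sym2 (Fin n) → Fin Q) = Q ^ (n + 1).choose 2 := by
    rw [Fintype.card_fun, Sym2.card, Fintype.card_fin, Fintype.card_fin]
  have hWk : ∀ y ∈ W, y.2.card = k := fun y hy => (hW y hy).1
  have hWC : ∀ y ∈ W, ∀ H ≤ gr S y.1, ¬ (C.fn out H ↔ C.fn out (H ⊔ cq y.2)) := by
    intro y hy
    have h1 := detects_iff.1 (hW y hy).2
    rwa [labelled_eq] at h1
  have h2card : ¬ y₀.2.card ≤ 1 := fun h1 =>
    hWC y₀ hy₀ ⊥ bot_le (by rw [cq_eq_bot h1, sup_bot_eq])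
  have hk : 1 ≤ k := by
    rw [← hWk y₀ hy₀]
    omega
  have hkn : k ≤ n := by
    rw [← hWk y₀ hy₀]
    refine (Finset.card_le_univ _).trans ?_
    rw [Fintype.card_fin]
  rcases hp with ⟨hS, hQ2, m, hm, hml, rfl⟩ | ⟨hS, hL, hLl, hQl, rfl⟩
  · have hL : 1 ≤ L := by
      by_contra hcon
      have h1 : L = 0 := by omega
      rw [h1, pow_zero] at hnL
      have := hWk y₀ hy₀
      omega
    obtain ⟨a₀, ha₀⟩ := Finset.card_eq_one.1 hS
    rw [ha₀] at hWC
    have hmain := main_one a₀ hQ2 hm hnL hml hs hv hk hkn hL C out W hWk hWC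
    rw [hcard] at hmain
    exact hmain
  · have hl1 : 1 ≤ l ^ 2 := Nat.one_le_pow _ _ (hL.trans hLl)
    have : NeZero Q := ⟨by omega⟩
    -- the label without edge is zero after a permutation
    obtain ⟨a₀, ha₀⟩ : ∃ a₀, Sᶜ = {a₀} := Finset.card_eq_one.1 (by
      rw [Finset.card_compl, Fintype.card_fin]
      omega)
    have hmem : ∀ a, a ∈ S ↔ a ≠ a₀ := by
      intro a
      rw [← Finset.notMem_compl, ha₀, Finset.mem_singleton]
    let σ : Equiv.Perm (Fin Q) := Equiv.swap a₀ 0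
    let τ : (Sym2 (Fin n) → Fin Q) × Finset (Fin n) ↪ (Sym2 (Fin n) → Fin Q) × Finset (Fin n) :=
      ⟨fun y => (fun e => σ (y.1 e), y.2), fun y z h => by
        obtain ⟨h1, h2⟩ := Prod.ext_iff.1 h
        exact Prod.ext (funext fun e => σ.injective (congrFun h1 e)) h2⟩
    have hgr : ∀ x : Sym2 (Fin n) → Fin Q, gr (nz Q) (fun e => σ (x e)) = gr S x := by
      intro x
      ext u v
      have h1 : σ (x s(u, v)) ∈ nz Q ↔ x s(u, v) ∈ S := by
        rw [hmem]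
        unfold nz
        rw [Finset.mem_filter]
        constructor
        · rintro ⟨_, h2⟩ h3
          exact h2 (by rw [h3]; exact Equiv.swap_apply_left a₀ 0)
        · intro h2
          refine ⟨Finset.mem_univ _, fun h3 => h2 ?_⟩
          have h4 : σ (x s(u, v)) = σ a₀ := h3.trans (Equiv.swap_apply_left a₀ 0).symm
          exact σ.injective h4
      exact ⟨fun h => ⟨h.1, h1.1 h.2⟩, fun h => ⟨h.1, h1.2 h.2⟩⟩
    have hmain := main_dense (Q := Q) hQl hL hLl hnL hs hv hk hkn C out (W.map τ) (by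
        intro y hy
        obtain ⟨z, hz, rfl⟩ := Finset.mem_map.1 hy
        exact hWk z hz) (by
        intro y hy
        obtain ⟨z, hz, rfl⟩ := Finset.mem_map.1 hy
        intro H hH
        refine hWC z hz H ?_
        rw [← hgr z.1]
        exact hH)
    rw [hcard, Finset.card_map] at hmain
    exact hmain

/-- Levels of nesting. -/
theorem levels {n L l k Q v s : ℕ} (S : Finset (Fin Q)) (hnL : n ≤ 2 ^ L)
    (hv : 4 * v ^ 2 ≤ n) (hp : Params L l k Q S.card v) (hs : s ≤ 2 ^ l) (C : Circuit n s)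
    (out : Fin s) (W : Finset ((Sym2 (Fin n) → Fin Q) × Finset (Fin n)))
    (hW : ∀ y ∈ W, y.2.card = k ∧ Detects (C.fn out) (labelled S y.1) y.2)
    (d : ℕ) (lev : Fin s → ℕ) (h1 : ∀ i, ∀ j ∈ C.ins i, lev j ≤ lev i)
    (h2 : ∀ i ∈ C.special, ∀ j ∈ C.ins i, lev j < lev i) (h3 : ∀ j ∈ C.watched, lev j < d) :
    n ^ 2 * W.card ≤ 16 * v ^ 2 *
      (∏ a ∈ range d, (1 + (C.watched.filter fun j => lev j = a).card)) *
      (Q ^ (n + 1).choose 2 * n.choose k) := by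
  obtain ⟨A, hA, y, hy, hAy⟩ := main_all S hnL hv hp hs C out W hW
  have h4 := changes_le_levels C lev h1 h2 h3 hy hAy
  exact hA.trans (Nat.mul_le_mul_right _ (Nat.mul_le_mul_left _ h4))

/-- Quantified circuits. -/
theorem quantified {n L l k Q v s q r t : ℕ} (S : Finset (Fin Q)) (hnL : n ≤ 2 ^ L)
    (hv : 4 * v ^ 2 ≤ n) (hp : Params L l k Q S.card v) (hs : 2 ^ q * (s + 1) ≤ 2 ^ l)
    (B : Fin q → Bool) (C : (Fin q → Bool) → Circuit n s) (out : (Fin q → Bool) → Fin s)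
    (ht0 : 1 ≤ t) (hr : ∀ z, (C z).special.card ≤ r)
    (ht : ∀ z, ∀ i ∈ (C z).special, ((C z).ins i).card ≤ t)
    (W : Finset ((Sym2 (Fin n) → Fin Q) × Finset (Fin n)))
    (hW : ∀ y ∈ W, y.2.card = k ∧
      Detects (fun G => Quantified q B fun z => (C z).fn (out z) G) (labelled S y.1) y.2) :
    n ^ 2 * W.card ≤ 16 * v ^ 2 * (t * 2 ^ (q + r)) * (Q ^ (n + 1).choose 2 * n.choose k) := by
  classical
  obtain ⟨N, C', o, h1, h2, h3⟩ := quant_circuit q B C out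
  obtain ⟨A, hA, y, hy, hAy⟩ := main_all S hnL hv hp (show N ≤ 2 ^ l by omega) C' o W (by
    intro y hy
    refine ⟨(hW y hy).1, fun H hH => ?_⟩
    have h4 := (hW y hy).2 H hH
    rw [h2, h2]
    exact h4)
  refine hA.trans (Nat.mul_le_mul_right _ (Nat.mul_le_mul_left _ ?_))
  let D : (Fin q → Bool) → Finset ℕ := fun z => @Finset.filter _ (fun a => ∃ i ∈ (C z).watched,
    ¬ ((C z).fn i (y a) ↔ (C z).fn i (y (a + 1)))) (Classical.decPred _) (range A)
  have hD : range A ⊆ (univ : Finset (Fin q → Bool)).biUnion D := by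
    intro a ha
    obtain ⟨w, hw, hne⟩ := hAy a (Finset.mem_range.1 ha)
    obtain ⟨z, i, hi, h4⟩ := h3 w hw
    rw [h4] at hne
    exact Finset.mem_biUnion.2 ⟨z, Finset.mem_univ _,
      (@Finset.mem_filter _ _ (Classical.decPred _) _ _).2 ⟨ha, i, hi, hne⟩⟩
  have hDz : ∀ z, (D z).card ≤ t * (2 ^ r - 1) := by
    intro z
    obtain ⟨g, hg, _, _, hg3⟩ := exists_subchain (C z) (C z).watched y
      (fun J => @Finset.filter _ (fun j => ∃ i ∈ (C z).watched,
        ¬ ((C z).fn i (y j) ↔ (C z).fn i (y (j + 1)))) (Classical.decPred _) (range J))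
      (fun J => rfl) A
    exact changes_le_few (C z) (hr z) (ht z) (y := fun a => y (g a))
      (fun a b hab => hy (hg hab)) hg3
  have hA1 : A ≤ 2 ^ q * (t * (2 ^ r - 1)) := by
    calc A = (range A).card := (Finset.card_range A).symm
      _ ≤ ((univ : Finset (Fin q → Bool)).biUnion D).card := Finset.card_le_card hD
      _ ≤ ∑ z : Fin q → Bool, (D z).card := Finset.card_biUnion_le
      _ ≤ ∑ _z : Fin q → Bool, t * (2 ^ r - 1) := Finset.sum_le_sum fun z _ => hDz z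
      _ = 2 ^ q * (t * (2 ^ r - 1)) := by
          rw [Finset.sum_const, Finset.card_univ, Fintype.card_fun, Fintype.card_bool,
            Fintype.card_fin, smul_eq_mul]
  obtain ⟨R, hR⟩ : ∃ R, 2 ^ r = R + 1 := ⟨2 ^ r - 1, by
    have : 1 ≤ 2 ^ r := Nat.one_le_two_pow
    omega⟩
  rw [hR, Nat.add_sub_cancel] at hA1
  have h5 : 1 ≤ 2 ^ q * t := Nat.one_le_iff_ne_zero.2 (Nat.mul_ne_zero (by positivity) (by omega))
  calc A + 1 ≤ 2 ^ q * (t * R) + 2 ^ q * t := Nat.add_le_add hA1 h5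
    _ = t * (2 ^ q * (R + 1)) := by ring
    _ = t * 2 ^ (q + r) := by rw [← hR, pow_add]

end Pool.Agent.H25.PC
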