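import Pool.Agent.H25.PC.Fin
import Pool.Agent.H25.NP.Quant

/-!
The choice of the parameters and the main theorem on planted cliques.
-/

namespace Pool.Agent.H25.PC

open Finset
open Pool.Agent.H25.NM Pool.Agent.H25.NP

theorem size_le {s l : ℕ} (hs : s ≤ 2 ^ l) : (s + 1) * (s + 2) ≤ 2 ^ (2 * l + 3) := by
  have h1 : 1 ≤ 2 ^ l := Nat.one_le_two_pow
  calc (s + 1) * (s + 2) ≤ (2 * 2 ^ l) * (3 * 2 ^ l) := Nat.mul_le_mul (by omega) (by omega)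
    _ ≤ (2 * 2 ^ l) * (4 * 2 ^ l) :=
        Nat.mul_le_mul_left _ (Nat.mul_le_mul_right _ (by norm_num))
    _ = 2 ^ (2 * l + 3) := by
        rw [pow_add, two_mul l, pow_add]
        ring

/-- The parameters of the first case. -/
theorem params {L l m Q : ℕ} (hm : 2 ≤ m) (hmL : Q ^ (4 * m) ≤ 2 ^ L)
    (hml : 2 ^ (2 * l + 2 * L + 3 * m + 4) ≤ Q ^ (m + 1) ^ 2) :
    2 ^ (2 * l + 2 * L + 4 + m * L) ≤ 3 ^ (m * L) := by
  rcases Nat.eq_zero_or_pos Q with hQ0 | hQ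
  · exfalso
    rw [hQ0, zero_pow (by positivity)] at hml
    have : 0 < 2 ^ (2 * l + 2 * L + 3 * m + 4) := by positivity
    omega
  -- compare sixteenth powers
  have h1 : (2 ^ (2 * l + 2 * L + 3 * m + 4)) ^ 16 ≤ 2 ^ (9 * (m * L)) := by
    calc (2 ^ (2 * l + 2 * L + 3 * m + 4)) ^ 16 ≤ (Q ^ (m + 1) ^ 2) ^ 16 :=
          Nat.pow_le_pow_left hml 16
      _ = Q ^ (16 * (m + 1) ^ 2) := by
          rw [← pow_mul]
          congr 1
          ring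
      _ ≤ Q ^ (4 * m * (9 * m)) := by
          refine Nat.pow_le_pow_right hQ ?_
          nlinarith
      _ = (Q ^ (4 * m)) ^ (9 * m) := by rw [pow_mul]
      _ ≤ (2 ^ L) ^ (9 * m) := Nat.pow_le_pow_left hmL _
      _ = 2 ^ (9 * (m * L)) := by
          rw [← pow_mul]
          congr 1
          ring
  have h2 : 16 * (2 * l + 2 * L + 3 * m + 4) ≤ 9 * (m * L) := by
    rw [← pow_mul] at h1
    have := (Nat.pow_le_pow_iff_right (a := 2) (by norm_num)).1 h1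
    omega
  have h3 : (2 ^ (2 * l + 2 * L + 4 + m * L)) ^ 16 ≤ (3 ^ (m * L)) ^ 16 := by
    calc (2 ^ (2 * l + 2 * L + 4 + m * L)) ^ 16 = 2 ^ (16 * (2 * l + 2 * L + 4 + m * L)) := by
          rw [← pow_mul, mul_comm]
      _ ≤ 2 ^ (25 * (m * L)) := Nat.pow_le_pow_right (by norm_num) (by omega)
      _ = (2 ^ 25) ^ (m * L) := by rw [pow_mul]
      _ ≤ (3 ^ 16) ^ (m * L) := Nat.pow_le_pow_left (by norm_num) _
      _ = (3 ^ (m * L)) ^ 16 := by rw [← pow_mul, ← pow_mul, mul_comm]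
  exact (Nat.pow_le_pow_iff_left (by norm_num)).1 h3

section

variable {n L l k Q s : ℕ}

/-- Density `1 / Q`. -/
theorem main_one {m : ℕ} (a₀ : Fin Q) (hQ2 : 2 ≤ Q) (hm : 2 ≤ m) (hnL : n ≤ 2 ^ L)
    (hml : 2 ^ (2 * l + 2 * L + 3 * m + 4) ≤ Q ^ (m + 1) ^ 2) (hs : s ≤ 2 ^ l)
    (hn : 4 * (3 * k * m ^ 2 * L * Q ^ (2 * m)) ^ 2 ≤ n) (hk : 1 ≤ k) (hkn : k ≤ n) (hL : 1 ≤ L)
    (C : Circuit n s) (out : Fin s) (W : Finset ((Sym2 (Fin n) → Fin Q) × Finset (Fin n)))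
    (hW : ∀ y ∈ W, y.2.card = k)
    (hWC : ∀ y ∈ W, ∀ H ≤ gr {a₀} y.1, ¬ (C.fn out H ↔ C.fn out (H ⊔ cq y.2))) :
    ∃ A : ℕ, n ^ 2 * W.card ≤ 16 * (3 * k * m ^ 2 * L * Q ^ (2 * m)) ^ 2 * (A + 1) *
        (Fintype.card (Sym2 (Fin n) → Fin Q) * n.choose k) ∧
      ∃ y : ℕ → SimpleGraph (Fin n), Monotone y ∧
        ∀ a < A, ∃ i ∈ C.watched, ¬ (C.fn i (y a) ↔ C.fn i (y (a + 1))) := by
  classical
  have hne : Nonempty (Fin Q) := ⟨a₀⟩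
  have : NeZero (m * L) := ⟨Nat.mul_ne_zero (by omega) (by omega)⟩
  have hkw : k * (3 * m * (m * L) * Q ^ (2 * m)) = 3 * k * m ^ 2 * L * Q ^ (2 * m) := by ring
  have hB0 := blockHyp_one (A₀ := Fin Q) a₀ (k := k) (g := m * L) (Fintype.card_fin Q) hQ2 m
    (by omega) le_rfl
  have hm2 : 1 ≤ m ^ 2 := Nat.one_le_pow _ _ (by omega)
  have hkmL : 1 ≤ k * m ^ 2 * L :=
    Nat.one_le_iff_ne_zero.2 (Nat.mul_ne_zero (Nat.mul_ne_zero (by omega) (by omega)) (by omega))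
  have hQv : Q ^ (2 * m) ≤ 3 * k * m ^ 2 * L * Q ^ (2 * m) := by
    calc Q ^ (2 * m) = 1 * Q ^ (2 * m) := (one_mul _).symm
      _ ≤ (3 * (k * m ^ 2 * L)) * Q ^ (2 * m) := Nat.mul_le_mul_right _ (by omega)
      _ = _ := by ring
  have hQn : Q ^ (4 * m) ≤ 2 ^ L := by
    calc Q ^ (4 * m) = (Q ^ (2 * m)) ^ 2 := by
          rw [← pow_mul]
          congr 1
          ring
      _ ≤ (3 * k * m ^ 2 * L * Q ^ (2 * m)) ^ 2 := Nat.pow_le_pow_left hQv 2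
      _ ≤ 4 * (3 * k * m ^ 2 * L * Q ^ (2 * m)) ^ 2 := by omega
      _ ≤ 2 ^ L := hn.trans hnL
  have hv1 : 1 ≤ 3 * k * m ^ 2 * L * Q ^ (2 * m) :=
    (Nat.one_le_pow _ _ (by omega)).trans hQv
  have hss := size_le hs
  have hn2 : n ^ 2 ≤ 2 ^ (2 * L) := by
    calc n ^ 2 ≤ (2 ^ L) ^ 2 := Nat.pow_le_pow_left hnL 2
      _ = 2 ^ (2 * L) := by rw [← pow_mul, mul_comm]
  have hmm : m + 1 ≤ 2 ^ m := Nat.lt_two_pow_self
  have hv1l : 3 * k * m ^ 2 * L * Q ^ (2 * m) + 1 ≤ 2 ^ L := by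
    have h1 : ∀ v : ℕ, 1 ≤ v → 4 * v ^ 2 ≤ 2 ^ L → v + 1 ≤ 2 ^ L := by
      intro v hv hh
      have h2 : v * 1 ≤ v * v := Nat.mul_le_mul_left _ hv
      have h3 : v ^ 2 = v * v := sq v
      omega
    exact h1 _ hv1 (hn.trans hnL)
  have he1 : 2 * (n ^ 2 * ((s + 1) * (s + 2)) * ((m + 1) ^ 2 * 2 ^ m)) ≤ Q ^ (m + 1) ^ 2 := by
    calc 2 * (n ^ 2 * ((s + 1) * (s + 2)) * ((m + 1) ^ 2 * 2 ^ m))
        ≤ 2 * (2 ^ (2 * L) * 2 ^ (2 * l + 3) * ((2 ^ m) ^ 2 * 2 ^ m)) := by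
          refine Nat.mul_le_mul_left _ (Nat.mul_le_mul (Nat.mul_le_mul hn2 hss)
            (Nat.mul_le_mul_right _ (Nat.pow_le_pow_left hmm 2)))
      _ = 2 ^ (2 * l + 2 * L + 3 * m + 4) := by
          rw [pow_add, pow_add, pow_add, mul_comm 3 m, pow_mul 2 m 3, pow_add]
          ring
      _ ≤ Q ^ (m + 1) ^ 2 := hml
  have he2 : 2 * (n ^ 2 * ((s + 1) * (s + 2)) *
      (k * (3 * m * (m * L) * Q ^ (2 * m)) + 1) ^ m) ≤ 3 ^ (m * L) := by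
    rw [hkw]
    calc 2 * (n ^ 2 * ((s + 1) * (s + 2)) * (3 * k * m ^ 2 * L * Q ^ (2 * m) + 1) ^ m)
        ≤ 2 * (2 ^ (2 * L) * 2 ^ (2 * l + 3) * (2 ^ L) ^ m) := by
          refine Nat.mul_le_mul_left _ (Nat.mul_le_mul (Nat.mul_le_mul hn2 hss)
            (Nat.pow_le_pow_left hv1l _))
      _ = 2 ^ (2 * l + 2 * L + 4 + m * L) := by
          rw [pow_add, pow_add, pow_add, mul_comm m L, pow_mul 2 L m, pow_add]
          ring
      _ ≤ 3 ^ (m * L) := params hm hQn hml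
  have hmain := main_gen (n := n) (s := s) hB0 hm hk hkn (by rw [hkw]; exact hn) (by
      have hQ0 : (0 : ℝ) < Q := by
        exact_mod_cast (by omega : 0 < Q)
      have h1 : (2 * (n ^ 2 * ((s + 1) * (s + 2)) * ((m + 1) ^ 2 * 2 ^ m)) : ℝ) ≤
          (Q : ℝ) ^ (m + 1) ^ 2 := by exact_mod_cast he1
      refine (mul_le_mul_of_nonneg_right h1 (by positivity)).trans (le_of_eq ?_)
      rw [← mul_pow, mul_one_div_cancel hQ0.ne', one_pow]) he2 C out W hW hWC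
  rw [hkw] at hmain
  exact hmain

/-- Density `1 - 1 / Q`. -/
theorem main_dense [NeZero Q] (hQl : 4 * l ^ 2 ≤ Q) (hL : 1 ≤ L) (hLl : L ≤ l)
    (hnL : n ≤ 2 ^ L) (hs : s ≤ 2 ^ l)
    (hn : 4 * (512 * k * l ^ 2 * L) ^ 2 ≤ n) (hk : 1 ≤ k) (hkn : k ≤ n)
    (C : Circuit n s) (out : Fin s) (W : Finset ((Sym2 (Fin n) → Fin Q) × Finset (Fin n)))
    (hW : ∀ y ∈ W, y.2.card = k)
    (hWC : ∀ y ∈ W, ∀ H ≤ gr (nz Q) y.1, ¬ (C.fn out H ↔ C.fn out (H ⊔ cq y.2))) :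
    ∃ A : ℕ, n ^ 2 * W.card ≤ 16 * (512 * k * l ^ 2 * L) ^ 2 * (A + 1) *
        (Fintype.card (Sym2 (Fin n) → Fin Q) * n.choose k) ∧
      ∃ y : ℕ → SimpleGraph (Fin n), Monotone y ∧
        ∀ a < A, ∃ i ∈ C.watched, ¬ (C.fn i (y a) ↔ C.fn i (y (a + 1))) := by
  classical
  have hl : 1 ≤ l := hL.trans hLl
  have hkw : k * (512 * (l ^ 2 * L)) = 512 * k * l ^ 2 * L := by ring
  have hl1 : 1 ≤ l ^ 2 := Nat.one_le_pow _ _ hl
  have hlL : 1 ≤ l ^ 2 * L := Nat.one_le_iff_ne_zero.2 (Nat.mul_ne_zero (by omega) (by omega))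
  have hklL : 1 ≤ k * (l ^ 2 * L) :=
    Nat.one_le_iff_ne_zero.2 (Nat.mul_ne_zero (by omega) (by omega))
  have hvk : 512 * k * l ^ 2 * L = 512 * (k * (l ^ 2 * L)) := by ring
  have hl2 : 2 ≤ l := by
    by_contra hcon'
    have h1 : L = 1 := by omega
    rw [h1] at hnL
    have h2 : 512 ^ 2 ≤ (512 * k * l ^ 2 * L) ^ 2 := by
      refine Nat.pow_le_pow_left ?_ 2
      rw [hvk]
      omega
    norm_num at hnL h2
    omega
  have hlL' : 1 ≤ 8 * (l * L) := by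
    have : 1 * 1 ≤ l * L := Nat.mul_le_mul hl hL
    omega
  have hB0 := blockHyp_dense (k := k) (w := 512 * (l ^ 2 * L)) (Q := Q) (2 * l) (8 * (l * L))
    (by omega) hlL' (by
      calc 2 * l * (2 * l) = 4 * l ^ 2 := by ring
        _ ≤ Q := hQl) (le_of_eq (by ring))
  have hv1 : 1 ≤ 512 * k * l ^ 2 * L := by
    rw [hvk]
    omega
  have hss : (s + 1) * (s + 2) ≤ 2 ^ (2 * l + 2) := by
    have h1 : 2 ≤ 2 ^ l := by
      calc 2 = 2 ^ 1 := rfl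
        _ ≤ 2 ^ l := Nat.pow_le_pow_right (by norm_num) hl
    calc (s + 1) * (s + 2) ≤ (2 * 2 ^ l) * (2 * 2 ^ l) := Nat.mul_le_mul (by omega) (by omega)
      _ = 2 ^ (2 * l + 2) := by
          rw [pow_add, two_mul l, pow_add]
          ring
  have hn2 : n ^ 2 ≤ 2 ^ (2 * L) := by
    calc n ^ 2 ≤ (2 ^ L) ^ 2 := Nat.pow_le_pow_left hnL 2
      _ = 2 ^ (2 * L) := by rw [← pow_mul, mul_comm]
  have hv1l : 512 * k * l ^ 2 * L + 1 ≤ 2 ^ L := by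
    have h1 : ∀ v : ℕ, 1 ≤ v → 4 * v ^ 2 ≤ 2 ^ L → v + 1 ≤ 2 ^ L := by
      intro v hv hh
      have h2 : v * 1 ≤ v * v := Nat.mul_le_mul_left _ hv
      have h3 : v ^ 2 = v * v := sq v
      omega
    exact h1 _ hv1 (hn.trans hnL)
  have hm1 : 2 * l + 1 ≤ 2 ^ (2 * l) := Nat.lt_two_pow_self
  have he1 : 2 * (n ^ 2 * ((s + 1) * (s + 2)) * ((2 * l + 1) ^ 2 * 2 ^ (2 * l))) ≤
      32 ^ (2 * l + 1) := by
    have hq2l' : n ^ 2 ≤ 2 ^ (2 * l) :=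
      hn2.trans (Nat.pow_le_pow_right (by norm_num) (by omega))
    calc 2 * (n ^ 2 * ((s + 1) * (s + 2)) * ((2 * l + 1) ^ 2 * 2 ^ (2 * l)))
        ≤ 2 * (2 ^ (2 * l) * 2 ^ (2 * l + 2) * ((2 ^ (2 * l)) ^ 2 * 2 ^ (2 * l))) := by
          refine Nat.mul_le_mul_left _ (Nat.mul_le_mul (Nat.mul_le_mul hq2l' hss)
            (Nat.mul_le_mul_right _ (Nat.pow_le_pow_left hm1 2)))
      _ = 8 * (2 ^ (2 * l)) ^ 5 := by
          rw [pow_add 2 (2 * l)]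
          ring
      _ = 8 * 32 ^ (2 * l) := by
          rw [← pow_mul, mul_comm (2 * l) 5, pow_mul]
          norm_num
      _ ≤ 32 ^ (2 * l + 1) := by
          rw [pow_succ]
          have : 0 < 32 ^ (2 * l) := by positivity
          omega
  have he2 : 2 * (n ^ 2 * ((s + 1) * (s + 2)) * (k * (512 * (l ^ 2 * L)) + 1) ^ (2 * l)) ≤
      2 ^ (8 * (l * L)) := by
    rw [hkw]
    calc 2 * (n ^ 2 * ((s + 1) * (s + 2)) * (512 * k * l ^ 2 * L + 1) ^ (2 * l))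
        ≤ 2 * (2 ^ (2 * L) * 2 ^ (2 * l + 2) * (2 ^ L) ^ (2 * l)) := by
          refine Nat.mul_le_mul_left _ (Nat.mul_le_mul (Nat.mul_le_mul hn2 hss)
            (Nat.pow_le_pow_left hv1l _))
      _ = 2 ^ (1 + (2 * L + (2 * l + 2)) + L * (2 * l)) := by
          rw [pow_add, pow_add, pow_add, ← pow_mul]
          ring
      _ ≤ 2 ^ (8 * (l * L)) := by
          refine Nat.pow_le_pow_right (by norm_num) ?_
          nlinarith [Nat.mul_le_mul hl2 hL, Nat.mul_le_mul_right L hl2, Nat.mul_le_mul_left l hL]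
  have hmain := main_gen (n := n) (s := s) hB0 (by omega) hk hkn (by rw [hkw]; exact hn) (by
      have h1 : (2 * (n ^ 2 * ((s + 1) * (s + 2)) *
          (((2 * l : ℕ) + 1) ^ 2 * 2 ^ (2 * l))) : ℝ) ≤ (32 : ℝ) ^ (2 * l + 1) := by
        exact_mod_cast he1
      refine (mul_le_mul_of_nonneg_right h1 (by positivity)).trans (le_of_eq ?_)
      rw [← mul_pow]
      norm_num) he2 C out W hW hWC
  rw [hkw] at hmain
  exact hmain

end

end Pool.Agent.H25.PC
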