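import Pool.Agent.H25.PC.Round

/-!
Closed families for random graphs of density `1 / Q` have few minimal members.
-/

namespace Pool.Agent.H25.PC

open Finset
open Pool.Agent.H25.NM

set_option linter.unusedSectionVars false

/-- Independence of events depending on disjoint sets of coordinates. -/
theorem nc_forall_indep {ι I A : Type} [Fintype I] [DecidableEq I] [Fintype A]
    (s : Finset ι) (E : ι → Finset I) (P : ι → (I → A) → Prop)
    (hdisj : ∀ i ∈ s, ∀ j ∈ s, i ≠ j → Disjoint (E i) (E j))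
    (hP : ∀ i ∈ s, ∀ x y : I → A, (∀ e ∈ E i, x e = y e) → (P i x ↔ P i y)) :
    nc (fun x : I → A => ∀ i ∈ s, P i x) * Fintype.card (I → A) ^ s.card =
      Fintype.card (I → A) * ∏ i ∈ s, nc (P i) := by
  classical
  induction s using Finset.induction_on with
  | empty =>
    rw [nc_true fun x i hi => absurd hi (Finset.notMem_empty i)]
    simp
  | insert a s ha ih =>
    have ih' := ih (fun i hi j hj => hdisj i (Finset.mem_insert_of_mem hi) j
      (Finset.mem_insert_of_mem hj)) fun i hi => hP i (Finset.mem_insert_of_mem hi)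
    have h2 := card_inter_mul (E a) (P a) (fun x : I → A => ∀ i ∈ s, P i x)
      (hP a (Finset.mem_insert_self _ _))
      (by
        intro x y hxy
        have hne : ∀ i ∈ s, ∀ e ∈ E i, e ∉ E a := by
          intro i hi e he he'
          have hd := hdisj i (Finset.mem_insert_of_mem hi) a (Finset.mem_insert_self _ _)
            (by
              rintro rfl
              exact ha hi)
          exact Finset.disjoint_left.1 hd he he'
        have h3 : ∀ i ∈ s, (P i x ↔ P i y) := fun i hi =>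
          hP i (Finset.mem_insert_of_mem hi) x y fun e he => hxy e (hne i hi e he)
        constructor
        · exact fun h i hi => (h3 i hi).1 (h i hi)
        · exact fun h i hi => (h3 i hi).2 (h i hi))
    rw [← nc_eq, ← nc_eq, ← nc_eq] at h2
    have h3 : nc (fun x : I → A => ∀ i ∈ insert a s, P i x) =
        nc (fun x : I → A => P a x ∧ ∀ i ∈ s, P i x) := by
      refine nc_congr fun x => ?_
      rw [Finset.forall_mem_insert]
    rw [h3, Finset.card_insert_of_notMem ha, Finset.prod_insert ha, pow_succ]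
    calc nc (fun x : I → A => P a x ∧ ∀ i ∈ s, P i x) *
          (Fintype.card (I → A) ^ s.card * Fintype.card (I → A))
        = (nc (fun x : I → A => P a x ∧ ∀ i ∈ s, P i x) * Fintype.card (I → A)) *
          Fintype.card (I → A) ^ s.card := by ring
      _ = nc (P a) * (nc (fun x : I → A => ∀ i ∈ s, P i x) *
          Fintype.card (I → A) ^ s.card) := by
          rw [h2]
          ring
      _ = _ := by
          rw [ih']
          ring

section

variable {V A₀ : Type} [Fintype V] [DecidableEq V] [Fintype A₀] [DecidableEq A₀]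

/-- **All colours.** -/
theorem all_colours {g : ℕ} [NeZero g] (a₀ : A₀) (Fm : Finset (Finset V)) (B : Finset V)
    (b : ℕ) {Λ : ℝ} (hΛ : 1 ≤ Λ) (hF : ∀ T ∈ Fm, T.card = b ∧ B ⊆ T)
    (hmax : ∀ C, B ⊂ C → C.card ≤ b → ((Fm.filter fun T => C ⊆ T).card : ℝ) ≤
      (Λ * g) ^ (b - C.card) * (Fintype.card A₀ : ℝ) ^ (b.choose 2 - C.card.choose 2))
    (hbig : (Λ * g) ^ (b - B.card) * (Fintype.card A₀ : ℝ) ^ (b.choose 2 - B.card.choose 2) < Fm.card)
    (h32 : (1 + 1 / Λ) ^ (b - B.card) ≤ 3 / 2) :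
    3 ^ g * nc (fun ρ : Sym2 V → A₀ => ∀ T ∈ Fm, ∃ e ∈ ed T \ ed B, ρ e ≠ a₀) ≤
      Fintype.card (Sym2 V → A₀) := by
  classical
  have hne : Nonempty A₀ := ⟨a₀⟩
  have hA1 : (1 : ℝ) ≤ Fintype.card A₀ := by
    exact_mod_cast Nat.one_le_iff_ne_zero.2 Fintype.card_ne_zero
  have hA0 : (0 : ℝ) < Fintype.card A₀ := by linarith
  have hg : (1 : ℝ) ≤ g := by
    exact_mod_cast Nat.one_le_iff_ne_zero.2 (NeZero.ne g)
  have hg0 : (0 : ℝ) < g := by linarith
  set K₂ : ℝ := (Fintype.card (Sym2 V → A₀) : ℝ) with hK₂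
  have hK₂0 : 0 < K₂ := by
    rw [hK₂]
    exact_mod_cast Fintype.card_pos
  have hN : Nonempty (Fin g) := ⟨0⟩
  -- choice of the colouring
  obtain ⟨χ, hχ⟩ : ∃ χ : V → Fin g, ∑ c : Fin g, (nc (fun ρ : Sym2 V → A₀ =>
      ∀ T ∈ Fm, ¬ Pres a₀ c B T χ ρ) : ℝ) ≤ g * K₂ / 3 := by
    by_contra hcon
    push Not at hcon
    have h1 : ∑ _χ : V → Fin g, (g * K₂ / 3 : ℝ) < ∑ χ : V → Fin g, ∑ c : Fin g,
        (nc (fun ρ : Sym2 V → A₀ => ∀ T ∈ Fm, ¬ Pres a₀ c B T χ ρ) : ℝ) :=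
      Finset.sum_lt_sum_of_nonempty Finset.univ_nonempty fun χ _ => hcon χ
    rw [Finset.sum_comm, Finset.sum_const, nsmul_eq_mul, Finset.card_univ] at h1
    have h2 : ∀ c : Fin g, ∑ χ : V → Fin g,
        (nc (fun ρ : Sym2 V → A₀ => ∀ T ∈ Fm, ¬ Pres a₀ c B T χ ρ) : ℝ) ≤
        Fintype.card (V → Fin g) * K₂ / 3 := by
      intro c
      have h3 := one_round_col a₀ c Fm B b hΛ hF hmax hbig h32
      rw [nc_prod fun (χ : V → Fin g) (ρ : Sym2 V → A₀) => ∀ T ∈ Fm, ¬ Pres a₀ c B T χ ρ,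
        Fintype.card_prod] at h3
      have h4 : (3 : ℝ) * ∑ χ : V → Fin g,
          (nc (fun ρ : Sym2 V → A₀ => ∀ T ∈ Fm, ¬ Pres a₀ c B T χ ρ) : ℝ) ≤
          Fintype.card (V → Fin g) * K₂ := by
        rw [hK₂]
        exact_mod_cast h3
      linarith
    have h5 := Finset.sum_le_sum fun (c : Fin g) (_ : c ∈ univ) => h2 c
    rw [Finset.sum_const, nsmul_eq_mul, Finset.card_univ, Fintype.card_fin] at h5
    have h6 : (g : ℝ) * (Fintype.card (V → Fin g) * K₂ / 3) =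
        Fintype.card (V → Fin g) * (g * K₂ / 3) := by ring
    linarith
  -- independence of the colours
  let Fc : Fin g → Finset (Finset V) := fun c => Fm.filter fun T => ∀ v ∈ T \ B, χ v = c
  let E : Fin g → Finset (Sym2 V) := fun c => (Fc c).biUnion fun T => ed T \ ed B
  have hFc : ∀ c T, T ∈ Fc c ↔ T ∈ Fm ∧ ∀ v ∈ T \ B, χ v = c := fun c T => Finset.mem_filter
  have hE : ∀ c, ∀ T ∈ Fc c, ed T \ ed B ⊆ E c := fun c T hT e he =>
    Finset.mem_biUnion.2 ⟨T, hT, he⟩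
  have hdisj : ∀ c c' : Fin g, c ≠ c' → Disjoint (E c) (E c') := by
    intro c c' hne
    rw [Finset.disjoint_left]
    intro e he he'
    obtain ⟨T, hT, he⟩ := Finset.mem_biUnion.1 he
    obtain ⟨T', hT', he'⟩ := Finset.mem_biUnion.1 he'
    obtain ⟨he1, he2⟩ := Finset.mem_sdiff.1 he
    obtain ⟨he1', _⟩ := Finset.mem_sdiff.1 he'
    have hT2 := ((hFc c T).1 hT).2
    have hT2' := ((hFc c' T').1 hT').2
    induction e using Sym2.ind with
    | _ u v =>
      rw [mem_ed] at he1 he1' he2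
      by_cases hu : u ∈ B
      · have hv : v ∉ B := fun hv => he2 ⟨he1.1, hu, hv⟩
        exact hne ((hT2 v (Finset.mem_sdiff.2 ⟨he1.2.2, hv⟩)).symm.trans
          (hT2' v (Finset.mem_sdiff.2 ⟨he1'.2.2, hv⟩)))
      · exact hne ((hT2 u (Finset.mem_sdiff.2 ⟨he1.2.1, hu⟩)).symm.trans
          (hT2' u (Finset.mem_sdiff.2 ⟨he1'.2.1, hu⟩)))
  have hind := nc_forall_indep (A := A₀) (univ : Finset (Fin g)) E
    (fun c (ρ : Sym2 V → A₀) => ∀ T ∈ Fm, ¬ Pres a₀ c B T χ ρ)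
    (fun c _ c' _ hne => hdisj c c' hne)
    (by
      intro c _ x y hxy
      have h1 : ∀ T ∈ Fm, (Pres a₀ c B T χ x ↔ Pres a₀ c B T χ y) := by
        intro T hT
        by_cases hc : ∀ v ∈ T \ B, χ v = c
        · have h2 := hE c T ((hFc c T).2 ⟨hT, hc⟩)
          constructor
          · exact fun h => ⟨hc, fun e he => by rw [← hxy e (h2 he)]; exact h.2 e he⟩
          · exact fun h => ⟨hc, fun e he => by rw [hxy e (h2 he)]; exact h.2 e he⟩
        · exact ⟨fun h => absurd h.1 hc, fun h => absurd h.1 hc⟩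
      constructor
      · exact fun h T hT h' => h T hT ((h1 T hT).2 h')
      · exact fun h T hT h' => h T hT ((h1 T hT).1 h'))
  rw [Finset.card_univ, Fintype.card_fin] at hind
  have hfail : nc (fun ρ : Sym2 V → A₀ => ∀ T ∈ Fm, ∃ e ∈ ed T \ ed B, ρ e ≠ a₀) ≤
      nc (fun ρ : Sym2 V → A₀ => ∀ c ∈ (univ : Finset (Fin g)),
        ∀ T ∈ Fm, ¬ Pres a₀ c B T χ ρ) := by
    refine nc_mono fun ρ hρ c _ T hT hp => ?_
    obtain ⟨e, he, hne⟩ := hρ T hT
    exact hne (hp.2 e he)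
  -- arithmetic and geometric mean
  have hag : ∏ c : Fin g, (nc (fun ρ : Sym2 V → A₀ => ∀ T ∈ Fm, ¬ Pres a₀ c B T χ ρ) : ℝ) ≤
      (K₂ / 3) ^ g := by
    have h1 := Real.geom_mean_le_arith_mean (univ : Finset (Fin g)) (fun _ => (1 : ℝ))
      (fun c => (nc (fun ρ : Sym2 V → A₀ => ∀ T ∈ Fm, ¬ Pres a₀ c B T χ ρ) : ℝ))
      (fun _ _ => zero_le_one) (by
        rw [Finset.sum_const, Finset.card_univ, Fintype.card_fin, nsmul_eq_mul, mul_one]
        exact hg0) (fun _ _ => Nat.cast_nonneg _)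
    simp only [Real.rpow_one, one_mul, Finset.sum_const, Finset.card_univ, Fintype.card_fin,
      nsmul_eq_mul, mul_one] at h1
    have h2 : (∑ c : Fin g, (nc (fun ρ : Sym2 V → A₀ => ∀ T ∈ Fm, ¬ Pres a₀ c B T χ ρ) : ℝ)) /
        g ≤ K₂ / 3 := by
      rw [div_le_iff₀ hg0]
      linarith
    have h3 := h1.trans h2
    have hp0 : 0 ≤ ∏ c : Fin g,
        (nc (fun ρ : Sym2 V → A₀ => ∀ T ∈ Fm, ¬ Pres a₀ c B T χ ρ) : ℝ) :=
      Finset.prod_nonneg fun _ _ => Nat.cast_nonneg _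
    calc ∏ c : Fin g, (nc (fun ρ : Sym2 V → A₀ => ∀ T ∈ Fm, ¬ Pres a₀ c B T χ ρ) : ℝ)
        = ((∏ c : Fin g, (nc (fun ρ : Sym2 V → A₀ =>
            ∀ T ∈ Fm, ¬ Pres a₀ c B T χ ρ) : ℝ)) ^ ((g : ℝ)⁻¹)) ^ g := by
          rw [← Real.rpow_natCast, ← Real.rpow_mul hp0, inv_mul_cancel₀ hg0.ne', Real.rpow_one]
      _ ≤ (K₂ / 3) ^ g := pow_le_pow_left₀ (Real.rpow_nonneg hp0 _) h3 g
  have h1 : (nc (fun ρ : Sym2 V → A₀ => ∀ c ∈ (univ : Finset (Fin g)),
        ∀ T ∈ Fm, ¬ Pres a₀ c B T χ ρ) : ℝ) * K₂ ^ g ≤ K₂ * (K₂ / 3) ^ g := by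
    have h2 : (nc (fun ρ : Sym2 V → A₀ => ∀ c ∈ (univ : Finset (Fin g)),
        ∀ T ∈ Fm, ¬ Pres a₀ c B T χ ρ) : ℝ) * K₂ ^ g = K₂ * ∏ c : Fin g,
        (nc (fun ρ : Sym2 V → A₀ => ∀ T ∈ Fm, ¬ Pres a₀ c B T χ ρ) : ℝ) := by
      rw [hK₂]
      exact_mod_cast hind
    rw [h2]
    exact mul_le_mul_of_nonneg_left hag hK₂0.le
  have h3 : (3 : ℝ) ^ g * (nc (fun ρ : Sym2 V → A₀ =>
      ∀ T ∈ Fm, ∃ e ∈ ed T \ ed B, ρ e ≠ a₀) : ℝ) ≤ K₂ := by
    have h4 : (nc (fun ρ : Sym2 V → A₀ => ∀ T ∈ Fm, ∃ e ∈ ed T \ ed B, ρ e ≠ a₀) : ℝ) ≤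
        nc (fun ρ : Sym2 V → A₀ => ∀ c ∈ (univ : Finset (Fin g)),
          ∀ T ∈ Fm, ¬ Pres a₀ c B T χ ρ) := by exact_mod_cast hfail
    have h5 : K₂ * (K₂ / 3) ^ g = (K₂ / 3 ^ g) * K₂ ^ g := by
      rw [div_pow]
      field_simp
    rw [h5] at h1
    have h6 := le_of_mul_le_mul_right h1 (by positivity)
    rw [le_div_iff₀ (by positivity)] at h6
    calc (3 : ℝ) ^ g * (nc (fun ρ : Sym2 V → A₀ =>
        ∀ T ∈ Fm, ∃ e ∈ ed T \ ed B, ρ e ≠ a₀) : ℝ) ≤ 3 ^ g *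
          nc (fun ρ : Sym2 V → A₀ => ∀ c ∈ (univ : Finset (Fin g)),
          ∀ T ∈ Fm, ¬ Pres a₀ c B T χ ρ) := by gcongr
      _ ≤ K₂ := by linarith
  rw [hK₂] at h3
  exact_mod_cast h3

/-- **Few minimal members, density one half.** -/
theorem card_mins_half {g : ℕ} [NeZero g] (a₀ : A₀) (m : ℕ) {Λ : ℝ} (hΛ : 1 ≤ Λ)
    (h32 : (1 + 1 / Λ) ^ m ≤ 3 / 2) (S : Finset (Finset V))
    (hS : Closed (gr {a₀} : (Sym2 V → A₀) → SimpleGraph V) (3 ^ g) m S)
    (b : ℕ) (hb : b ≤ m) (I : Finset V) :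
    (((mins S b).filter fun T => I ⊆ T).card : ℝ) ≤
      (Λ * g) ^ (b - I.card) * (Fintype.card A₀ : ℝ) ^ (b.choose 2 - I.card.choose 2) := by
  classical
  by_contra hcon
  push Not at hcon
  have hne : Nonempty A₀ := ⟨a₀⟩
  have hA1 : (1 : ℝ) ≤ Fintype.card A₀ := by
    exact_mod_cast Nat.one_le_iff_ne_zero.2 Fintype.card_ne_zero
  have hA0 : (0 : ℝ) < Fintype.card A₀ := by linarith
  have hg : (1 : ℝ) ≤ g := by
    exact_mod_cast Nat.one_le_iff_ne_zero.2 (NeZero.ne g)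
  have hg0 : (0 : ℝ) < g := by linarith
  have hΛ0 : (0 : ℝ) < Λ := by linarith
  let lk : Finset V → Finset (Finset V) := fun B => (mins S b).filter fun T => B ⊆ T
  let 𝓑 : Finset (Finset V) := univ.filter fun B => B.card ≤ b ∧
    (Λ * g) ^ (b - B.card) * (Fintype.card A₀ : ℝ) ^ (b.choose 2 - B.card.choose 2) < (lk B).card
  have hI : I.card ≤ b := by
    have h1 : (0 : ℝ) < ((mins S b).filter fun T => I ⊆ T).card :=
      lt_of_le_of_lt (by positivity) hcon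
    have h2 : 0 < ((mins S b).filter fun T => I ⊆ T).card := by exact_mod_cast h1
    obtain ⟨T, hT⟩ := Finset.card_pos.1 h2
    obtain ⟨h3, h4⟩ := Finset.mem_filter.1 hT
    rw [← (mem_mins.1 h3).2.1]
    exact Finset.card_le_card h4
  have h𝓑 : 𝓑.Nonempty := ⟨I, Finset.mem_filter.2 ⟨Finset.mem_univ _, hI, hcon⟩⟩
  obtain ⟨B, hB, hBmax⟩ := Finset.exists_max_image 𝓑 Finset.card h𝓑
  obtain ⟨_, hBb, hbig⟩ := Finset.mem_filter.1 hB
  have hF : ∀ T ∈ lk B, T.card = b ∧ B ⊆ T := by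
    intro T hT
    obtain ⟨h1, h2⟩ := Finset.mem_filter.1 hT
    exact ⟨(mem_mins.1 h1).2.1, h2⟩
  have hBlt : B.card < b := by
    rcases lt_or_eq_of_le hBb with h | h
    · exact h
    · exfalso
      rw [h, Nat.sub_self, Nat.sub_self, pow_zero, pow_zero, one_mul] at hbig
      have h1 : (lk B).card ≤ 1 := by
        rw [Finset.card_le_one]
        intro T hT T' hT'
        have e1 := Finset.eq_of_subset_of_card_le (hF T hT).2 (by rw [(hF T hT).1, h])
        have e2 := Finset.eq_of_subset_of_card_le (hF T' hT').2 (by rw [(hF T' hT').1, h])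
        rw [← e1, ← e2]
      have h2 : ((lk B).card : ℝ) ≤ 1 := by exact_mod_cast h1
      linarith
  have hmax : ∀ C, B ⊂ C → C.card ≤ b → (((lk B).filter fun T => C ⊆ T).card : ℝ) ≤
      (Λ * g) ^ (b - C.card) * (Fintype.card A₀ : ℝ) ^ (b.choose 2 - C.card.choose 2) := by
    intro C hC hCb
    by_contra hcon'
    push Not at hcon'
    have h1 : ((lk B).filter fun T => C ⊆ T) ⊆ lk C := by
      intro T hT
      obtain ⟨h1, h2⟩ := Finset.mem_filter.1 hT
      exact Finset.mem_filter.2 ⟨(Finset.mem_filter.1 h1).1, h2⟩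
    have h2 : (((lk B).filter fun T => C ⊆ T).card : ℝ) ≤ (lk C).card := by
      exact_mod_cast Finset.card_le_card h1
    have h3 : C ∈ 𝓑 := Finset.mem_filter.2 ⟨Finset.mem_univ _, hCb, hcon'.trans_le h2⟩
    have h4 := hBmax C h3
    have h5 := Finset.card_lt_card hC
    omega
  have h32' : (1 + 1 / Λ) ^ (b - B.card) ≤ 3 / 2 := by
    refine le_trans (pow_le_pow_right₀ ?_ (by omega)) h32
    have : (0 : ℝ) ≤ 1 / Λ := by positivity
    linarith
  have hround := all_colours (g := g) a₀ (lk B) B b hΛ hF hmax hbig h32'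
  have hBS : B ∈ S := by
    refine hS.2 B (by omega) ?_
    have h1 : nc (fun ω : Sym2 V → A₀ => ¬ D S (gr {a₀} ω ⊔ cq B)) ≤
        nc (fun ω : Sym2 V → A₀ => ∀ T ∈ lk B, ∃ e ∈ ed T \ ed B, ω e ≠ a₀) := by
      refine nc_mono fun ω hω T hT => ?_
      by_contra hcon'
      push Not at hcon'
      refine hω ⟨T, (mem_mins.1 (Finset.mem_filter.1 hT).1).1, ?_⟩
      intro u v huv
      rw [SimpleGraph.sup_adj]
      by_cases hB2 : u ∈ B ∧ v ∈ B
      · exact Or.inr ⟨huv.1, hB2.1, hB2.2⟩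
      · left
        refine ⟨huv.1, Finset.mem_singleton.2 ?_⟩
        refine hcon' s(u, v) (Finset.mem_sdiff.2 ⟨mem_ed.2 huv, fun h => hB2 ?_⟩)
        exact (mem_ed.1 h).2
    exact (Nat.mul_le_mul_left _ h1).trans hround
  -- contradiction with minimality
  have hne : (lk B).Nonempty := by
    rw [← Finset.card_pos]
    have : (0 : ℝ) < (lk B).card := lt_of_le_of_lt (by positivity) hbig
    exact_mod_cast this
  obtain ⟨T, hT⟩ := hne
  have hTm := (mem_mins.1 (Finset.mem_filter.1 hT).1).2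
  have hBT : B = T := hTm.2 B hBS (hF T hT).2
  rw [hBT, hTm.1] at hBlt
  exact lt_irrefl _ hBlt

end

end Pool.Agent.H25.PC
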