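import Pool.Agent.H25.PC.Link
import Pool.Agent.H25.NM.Sparse

/-!
A large family of cliques with small links is represented in a random graph up to an
exponentially small probability.
-/

namespace Pool.Agent.H25.PC

open Finset
open Pool.Agent.H25.NM

set_option linter.unusedSectionVars false

section

variable {V A₀ : Type} [Fintype V] [DecidableEq V] [Fintype A₀] [DecidableEq A₀]

theorem card_union_col {T T' B : Finset V} (h : B ⊆ T) (h' : B ⊆ T') {b : ℕ} (hT : T.card = b)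
    (hT' : T'.card = b) :
    ((T \ B) ∪ (T' \ B)).card + ((T ∩ T').card - B.card) = 2 * (b - B.card) := by
  have h1 := Finset.card_union_add_card_inter (T \ B) (T' \ B)
  have h2 : (T \ B) ∩ (T' \ B) = (T ∩ T') \ B := by
    ext e
    simp only [Finset.mem_inter, Finset.mem_sdiff]
    tauto
  rw [h2, Finset.card_sdiff_of_subset (Finset.subset_inter h h'), Finset.card_sdiff_of_subset h,
    Finset.card_sdiff_of_subset h', hT, hT'] at h1
  omega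

/-- `T` is present: its new vertices have colour `c` and its new edges are there. -/
def Pres {g : ℕ} (a₀ : A₀) (c : Fin g) (B T : Finset V) (χ : V → Fin g) (ρ : Sym2 V → A₀) : Prop :=
  (∀ v ∈ T \ B, χ v = c) ∧ ∀ e ∈ ed T \ ed B, ρ e = a₀

/-- One colour: second moment. -/
theorem one_round_col {g : ℕ} [NeZero g] (a₀ : A₀) (c : Fin g) (Fm : Finset (Finset V)) (B : Finset V)
    (b : ℕ) {Λ : ℝ} (hΛ : 1 ≤ Λ) (hF : ∀ T ∈ Fm, T.card = b ∧ B ⊆ T)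
    (hmax : ∀ C, B ⊂ C → C.card ≤ b → ((Fm.filter fun T => C ⊆ T).card : ℝ) ≤
      (Λ * g) ^ (b - C.card) * (Fintype.card A₀ : ℝ) ^ (b.choose 2 - C.card.choose 2))
    (hbig : (Λ * g) ^ (b - B.card) * (Fintype.card A₀ : ℝ) ^ (b.choose 2 - B.card.choose 2) < Fm.card)
    (h32 : (1 + 1 / Λ) ^ (b - B.card) ≤ 3 / 2) :
    3 * nc (fun x : (V → Fin g) × (Sym2 V → A₀) => ∀ T ∈ Fm, ¬ Pres a₀ c B T x.1 x.2) ≤
      Fintype.card ((V → Fin g) × (Sym2 V → A₀)) := by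
  classical
  have hne : Nonempty A₀ := ⟨a₀⟩
  have hA1 : (1 : ℝ) ≤ Fintype.card A₀ := by
    exact_mod_cast Nat.one_le_iff_ne_zero.2 Fintype.card_ne_zero
  have hA0 : (0 : ℝ) < Fintype.card A₀ := by linarith
  have hg : (1 : ℝ) ≤ g := by
    exact_mod_cast Nat.one_le_iff_ne_zero.2 (NeZero.ne g)
  have hg0 : (0 : ℝ) < g := by linarith
  have hΛ0 : (0 : ℝ) < Λ := by linarith
  have hFm : (0 : ℝ) < Fm.card := lt_of_le_of_lt (by positivity) hbig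
  set K₁ : ℝ := (Fintype.card (V → Fin g) : ℝ) with hK₁
  set K₂ : ℝ := (Fintype.card (Sym2 V → A₀) : ℝ) with hK₂
  have hK₁0 : 0 < K₁ := by
    rw [hK₁]
    exact_mod_cast Fintype.card_pos
  have hK₂0 : 0 < K₂ := by
    rw [hK₂]
    exact_mod_cast Fintype.card_pos
  set d := b - B.card with hd
  set D := b.choose 2 - B.card.choose 2 with hD
  -- counting
  have hcount₁ : ∀ U : Finset V, (nc (fun χ : V → Fin g => ∀ v ∈ U, χ v = c) : ℝ) =
      K₁ / (g : ℝ) ^ U.card := by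
    intro U
    have h1 := nc_forall_eq U (fun _ => c)
    rw [Fintype.card_fin] at h1
    have h2 : Fintype.card (V → Fin g) = g ^ Fintype.card V := by
      rw [Fintype.card_fun, Fintype.card_fin]
    rw [eq_div_iff (by positivity), hK₁, h2]
    exact_mod_cast h1
  have hcount₂ : ∀ U : Finset (Sym2 V), (nc (fun ρ : Sym2 V → A₀ => ∀ e ∈ U, ρ e = a₀) : ℝ) =
      K₂ / (Fintype.card A₀ : ℝ) ^ U.card := by
    intro U
    have h1 := nc_forall_eq U (fun _ => a₀)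
    have h2 : Fintype.card (Sym2 V → A₀) = Fintype.card A₀ ^ Fintype.card (Sym2 V) := by
      rw [Fintype.card_fun]
    rw [eq_div_iff (by positivity), hK₂, h2]
    exact_mod_cast h1
  have hcount : ∀ (U : Finset V) (W : Finset (Sym2 V)),
      (nc (fun x : (V → Fin g) × (Sym2 V → A₀) =>
        (∀ v ∈ U, x.1 v = c) ∧ ∀ e ∈ W, x.2 e = a₀) : ℝ) =
      K₁ * K₂ / ((g : ℝ) ^ U.card * (Fintype.card A₀ : ℝ) ^ W.card) := by
    intro U W
    rw [nc_prod_and (fun χ : V → Fin g => ∀ v ∈ U, χ v = c)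
      fun ρ : Sym2 V → A₀ => ∀ e ∈ W, ρ e = a₀]
    push_cast
    rw [hcount₁, hcount₂]
    field_simp
  let X : (V → Fin g) × (Sym2 V → A₀) → ℝ := fun x =>
    ∑ T ∈ Fm, if (∀ v ∈ T \ B, x.1 v = c) ∧ ∀ e ∈ ed T \ ed B, x.2 e = a₀ then (1 : ℝ) else 0
  have hsum1 : ∑ x, X x = Fm.card * (K₁ * K₂ / ((g : ℝ) ^ d * (Fintype.card A₀ : ℝ) ^ D)) := by
    show ∑ x : (V → Fin g) × (Sym2 V → A₀), ∑ T ∈ Fm,
      (if (∀ v ∈ T \ B, x.1 v = c) ∧ ∀ e ∈ ed T \ ed B, x.2 e = a₀ then (1 : ℝ) else 0) = _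
    rw [Finset.sum_comm]
    have h1 : ∀ T ∈ Fm, ∑ x : (V → Fin g) × (Sym2 V → A₀),
        (if (∀ v ∈ T \ B, x.1 v = c) ∧ ∀ e ∈ ed T \ ed B, x.2 e = a₀ then (1 : ℝ) else 0) =
        K₁ * K₂ / ((g : ℝ) ^ d * (Fintype.card A₀ : ℝ) ^ D) := by
      intro T hT
      have h2 := hcount (T \ B) (ed T \ ed B)
      rw [card_ed_sdiff (hF T hT).2, Finset.card_sdiff_of_subset (hF T hT).2, (hF T hT).1,
        nc_eq_sum_nat] at h2
      rw [← h2]
      push_cast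
      rfl
    rw [Finset.sum_congr rfl h1, Finset.sum_const, nsmul_eq_mul]
  have hsum2 : ∑ x, X x ^ 2 ≤
      3 / 2 * (Fm.card : ℝ) ^ 2 * (K₁ * K₂ / ((g : ℝ) ^ (2 * d) * (Fintype.card A₀ : ℝ) ^ (2 * D))) := by
    have h1 : ∀ x : (V → Fin g) × (Sym2 V → A₀), X x ^ 2 = ∑ T ∈ Fm, ∑ T' ∈ Fm,
        if (∀ v ∈ (T \ B) ∪ (T' \ B), x.1 v = c) ∧
          ∀ e ∈ (ed T \ ed B) ∪ (ed T' \ ed B), x.2 e = a₀ then (1 : ℝ) else 0 := by
      intro x
      show (∑ T ∈ Fm, if (∀ v ∈ T \ B, x.1 v = c) ∧ ∀ e ∈ ed T \ ed B, x.2 e = a₀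
        then (1 : ℝ) else 0) ^ 2 = _
      rw [sq, Finset.sum_mul_sum]
      refine Finset.sum_congr rfl fun T _ => Finset.sum_congr rfl fun T' _ => ?_
      have hiff : ((∀ v ∈ (T \ B) ∪ (T' \ B), x.1 v = c) ∧
          ∀ e ∈ (ed T \ ed B) ∪ (ed T' \ ed B), x.2 e = a₀) ↔
          ((∀ v ∈ T \ B, x.1 v = c) ∧ ∀ e ∈ ed T \ ed B, x.2 e = a₀) ∧
          ((∀ v ∈ T' \ B, x.1 v = c) ∧ ∀ e ∈ ed T' \ ed B, x.2 e = a₀) := by
        simp only [Finset.forall_mem_union]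
        tauto
      by_cases c1 : (∀ v ∈ T \ B, x.1 v = c) ∧ ∀ e ∈ ed T \ ed B, x.2 e = a₀
      · by_cases c2 : (∀ v ∈ T' \ B, x.1 v = c) ∧ ∀ e ∈ ed T' \ ed B, x.2 e = a₀
        · rw [if_pos c1, if_pos c2, if_pos (hiff.2 ⟨c1, c2⟩)]
          norm_num
        · rw [if_neg c2, if_neg fun h => c2 (hiff.1 h).2, mul_zero]
      · rw [if_neg c1, if_neg fun h => c1 (hiff.1 h).1, zero_mul]
    rw [Finset.sum_congr rfl fun x _ => h1 x, Finset.sum_comm]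
    have h2 : ∀ T ∈ Fm, ∑ x : (V → Fin g) × (Sym2 V → A₀), ∑ T' ∈ Fm,
        (if (∀ v ∈ (T \ B) ∪ (T' \ B), x.1 v = c) ∧
          ∀ e ∈ (ed T \ ed B) ∪ (ed T' \ ed B), x.2 e = a₀ then (1 : ℝ) else 0) ≤
        3 / 2 * Fm.card * (K₁ * K₂ / ((g : ℝ) ^ (2 * d) * (Fintype.card A₀ : ℝ) ^ (2 * D))) := by
      intro T hT
      rw [Finset.sum_comm]
      have h3 : ∀ T' ∈ Fm, ∑ x : (V → Fin g) × (Sym2 V → A₀),
          (if (∀ v ∈ (T \ B) ∪ (T' \ B), x.1 v = c) ∧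
          ∀ e ∈ (ed T \ ed B) ∪ (ed T' \ ed B), x.2 e = a₀ then (1 : ℝ) else 0) =
          K₁ * K₂ / ((g : ℝ) ^ (2 * d) * (Fintype.card A₀ : ℝ) ^ (2 * D)) *
            ((g : ℝ) ^ ((T ∩ T').card - B.card) *
              (Fintype.card A₀ : ℝ) ^ ((T ∩ T').card.choose 2 - B.card.choose 2)) := by
        intro T' hT'
        have h4 := hcount ((T \ B) ∪ (T' \ B)) ((ed T \ ed B) ∪ (ed T' \ ed B))
        rw [nc_eq_sum_nat] at h4
        have h5 := card_union_ed (hF T hT).2 (hF T' hT').2 (hF T hT).1 (hF T' hT').1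
        have h6 := card_union_col (hF T hT).2 (hF T' hT').2 (hF T hT).1 (hF T' hT').1
        rw [← hD] at h5
        rw [← hd] at h6
        have h7 : ∑ x : (V → Fin g) × (Sym2 V → A₀),
          (if (∀ v ∈ (T \ B) ∪ (T' \ B), x.1 v = c) ∧
          ∀ e ∈ (ed T \ ed B) ∪ (ed T' \ ed B), x.2 e = a₀ then (1 : ℝ) else 0) =
          K₁ * K₂ / ((g : ℝ) ^ ((T \ B) ∪ (T' \ B)).card *
            (Fintype.card A₀ : ℝ) ^ ((ed T \ ed B) ∪ (ed T' \ ed B)).card) := by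
          rw [← h4]
          push_cast
          rfl
        rw [h7, ← h5, ← h6, pow_add, pow_add]
        field_simp
      rw [Finset.sum_congr rfl h3, ← Finset.mul_sum]
      have h6 := link_sum_col Fm B b (q := (Fintype.card A₀ : ℝ)) (g := (g : ℝ)) hA1 hg hΛ hF hmax
        hbig.le
        h32 hT
      calc K₁ * K₂ / ((g : ℝ) ^ (2 * d) * (Fintype.card A₀ : ℝ) ^ (2 * D)) *
            ∑ T' ∈ Fm, ((g : ℝ) ^ ((T ∩ T').card - B.card) *
              (Fintype.card A₀ : ℝ) ^ ((T ∩ T').card.choose 2 - B.card.choose 2))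
          ≤ K₁ * K₂ / ((g : ℝ) ^ (2 * d) * (Fintype.card A₀ : ℝ) ^ (2 * D)) * (3 / 2 * Fm.card) :=
            mul_le_mul_of_nonneg_left h6 (by positivity)
        _ = _ := by ring
    refine (Finset.sum_le_sum h2).trans (le_of_eq ?_)
    rw [Finset.sum_const, nsmul_eq_mul]
    ring
  -- Cauchy-Schwarz
  set S := univ.filter fun x : (V → Fin g) × (Sym2 V → A₀) => X x ≠ 0 with hS
  have hcs : (∑ x ∈ S, X x) ^ 2 ≤ S.card * ∑ x ∈ S, X x ^ 2 := sq_sum_le_card_mul_sum_sq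
  have hs1 : ∑ x ∈ S, X x = ∑ x, X x := by
    rw [hS, Finset.sum_filter_ne_zero]
  have hs2 : ∑ x ∈ S, X x ^ 2 ≤ ∑ x, X x ^ 2 :=
    Finset.sum_le_sum_of_subset_of_nonneg (Finset.subset_univ _) fun x _ _ => sq_nonneg _
  rw [hs1, hsum1] at hcs
  have hcs2 : (Fm.card * (K₁ * K₂ / ((g : ℝ) ^ d * (Fintype.card A₀ : ℝ) ^ D))) ^ 2 ≤
      S.card * (3 / 2 * (Fm.card : ℝ) ^ 2 *
        (K₁ * K₂ / ((g : ℝ) ^ (2 * d) * (Fintype.card A₀ : ℝ) ^ (2 * D)))) :=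
    hcs.trans (mul_le_mul_of_nonneg_left (hs2.trans hsum2) (by positivity))
  have hcs3 : 2 * (K₁ * K₂) ≤ 3 * S.card := by
    have e1 : (Fm.card * (K₁ * K₂ / ((g : ℝ) ^ d * (Fintype.card A₀ : ℝ) ^ D))) ^ 2 =
        ((Fm.card : ℝ) ^ 2 * (K₁ * K₂ / ((g : ℝ) ^ (2 * d) * (Fintype.card A₀ : ℝ) ^ (2 * D)))) *
          (K₁ * K₂) := by
      rw [mul_comm 2 d, pow_mul, mul_comm 2 D, pow_mul]
      field_simp
    have e2 : S.card * (3 / 2 * (Fm.card : ℝ) ^ 2 *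
        (K₁ * K₂ / ((g : ℝ) ^ (2 * d) * (Fintype.card A₀ : ℝ) ^ (2 * D)))) =
        ((Fm.card : ℝ) ^ 2 * (K₁ * K₂ / ((g : ℝ) ^ (2 * d) * (Fintype.card A₀ : ℝ) ^ (2 * D)))) *
          (3 / 2 * S.card) := by ring
    rw [e1, e2] at hcs2
    have := le_of_mul_le_mul_left hcs2 (by positivity)
    linarith
  -- conclusion
  have hnc : nc (fun x : (V → Fin g) × (Sym2 V → A₀) =>
      ∀ T ∈ Fm, ¬ Pres a₀ c B T x.1 x.2) + S.card ≤
      Fintype.card ((V → Fin g) × (Sym2 V → A₀)) := by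
    have h1 : nc (fun x : (V → Fin g) × (Sym2 V → A₀) =>
        ∀ T ∈ Fm, ¬ Pres a₀ c B T x.1 x.2) ≤ nc (fun x => ¬ X x ≠ 0) := by
      refine nc_mono fun x hx => ?_
      rw [not_not]
      exact Finset.sum_eq_zero fun T hT => if_neg (hx T hT)
    have h2 := nc_add_nc_not fun x : (V → Fin g) × (Sym2 V → A₀) => X x ≠ 0
    have h3 : nc (fun x : (V → Fin g) × (Sym2 V → A₀) => X x ≠ 0) = S.card := by
      rw [hS, nc_eq]
    omega
  have hcard : ((Fintype.card ((V → Fin g) × (Sym2 V → A₀)) : ℕ) : ℝ) = K₁ * K₂ := by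
    rw [Fintype.card_prod, hK₁, hK₂]
    push_cast
    rfl
  have hnc' : (nc (fun x : (V → Fin g) × (Sym2 V → A₀) =>
      ∀ T ∈ Fm, ¬ Pres a₀ c B T x.1 x.2) : ℝ) + S.card ≤ K₁ * K₂ := by
    rw [← hcard]
    exact_mod_cast hnc
  have : (3 * nc (fun x : (V → Fin g) × (Sym2 V → A₀) =>
      ∀ T ∈ Fm, ¬ Pres a₀ c B T x.1 x.2) : ℝ) ≤ K₁ * K₂ := by
    linarith
  rw [← hcard] at this
  exact_mod_cast this

end

end Pool.Agent.H25.PC
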