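import Pool.Agent.H25.PC.Last

/-!
Exhaustive search over small sets detects planted cliques with a monotone circuit.
-/

namespace Pool.Agent.H25.PC

open Finset
open Pool.Agent.H25.NM Pool.Agent.H25.NP

set_option linter.unusedSectionVars false

/-- A monotone circuit for `c`-clique. -/
theorem exists_search (n c : ℕ) :
    ∃ (s : ℕ) (C : Circuit n s) (out : Fin s), s = n ^ 2 + n.choose c + 1 ∧ C.special = ∅ ∧
      ∀ G, C.fn out G ↔ ¬ G.CliqueFree c := by
  classical
  let T := ((Fin n × Fin n) ⊕ {U : Finset (Fin n) // U.card = c}) ⊕ Unit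
  let fn : T → SimpleGraph (Fin n) → Prop := Sum.elim (Sum.elim (fun e G => G.Adj e.1 e.2)
    (fun U G => ∀ u ∈ U.1, ∀ v ∈ U.1, u ≠ v → G.Adj u v)) (fun _ G => ¬ G.CliqueFree c)
  let ins : T → Finset T := Sum.elim (Sum.elim (fun _ => ∅)
    (fun U => U.1.offDiag.image fun e => Sum.inl (Sum.inl e)))
    (fun _ => univ.image fun U => Sum.inl (Sum.inr U))
  let rank : T → ℕ := Sum.elim (Sum.elim (fun _ => 0) (fun _ => 1)) (fun _ => 2)
  obtain ⟨C, e, h1, _, h3⟩ := exists_circuit fn ins ∅ rank (by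
    rintro ((x | U) | u) j hj
    · exact absurd hj (Finset.notMem_empty j)
    · obtain ⟨p, _, rfl⟩ := Finset.mem_image.1 hj
      exact Nat.zero_lt_one
    · obtain ⟨U, _, rfl⟩ := Finset.mem_image.1 hj
      exact Nat.one_lt_two) (by
    rintro ((x | U) | u)
    · exact Or.inl ⟨x.1, x.2, fun G => Iff.rfl⟩
    · refine Or.inr (Or.inl fun G => ?_)
      constructor
      · intro h j hj
        obtain ⟨p, hp, rfl⟩ := Finset.mem_image.1 hj
        obtain ⟨h4, h5, h6⟩ := Finset.mem_offDiag.1 hp
        exact h p.1 h4 p.2 h5 h6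
      · intro h a ha b hb hab
        exact h (Sum.inl (Sum.inl (a, b)))
          (Finset.mem_image_of_mem _ (Finset.mem_offDiag.2 ⟨ha, hb, hab⟩))
    · refine Or.inr (Or.inr (Or.inl fun G => ?_))
      constructor
      · intro h
        have h' : ¬ G.CliqueFree c := h
        unfold SimpleGraph.CliqueFree at h'
        push Not at h'
        obtain ⟨U, hU⟩ := h'
        refine ⟨Sum.inl (Sum.inr ⟨U, hU.card_eq⟩),
          Finset.mem_image_of_mem _ (Finset.mem_univ _), ?_⟩
        intro a ha b hb hab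
        exact hU.isClique ha hb hab
      · rintro ⟨j, hj, h⟩
        obtain ⟨U, _, rfl⟩ := Finset.mem_image.1 hj
        intro hG
        exact hG U.1 ⟨fun a ha b hb hab => h a ha b hb hab, U.2⟩)
  refine ⟨_, C, e (Sum.inr ()), ?_, by rw [h3, Finset.map_empty], fun G => ?_⟩
  · have h4 : Fintype.card {U : Finset (Fin n) // U.card = c} = n.choose c := by
      rw [Fintype.card_finset_len, Fintype.card_fin]
    show Fintype.card (((Fin n × Fin n) ⊕ {U : Finset (Fin n) // U.card = c}) ⊕ Unit) = _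
    rw [Fintype.card_sum, Fintype.card_sum, Fintype.card_prod, Fintype.card_fin, h4,
      Fintype.card_unit, sq]
  · rw [h1]
    exact Iff.rfl

/-- Few labellings contain a small clique. -/
theorem nc_clique {n Q : ℕ} (S : Finset (Fin Q)) (c : ℕ) :
    nc (fun x : Sym2 (Fin n) → Fin Q => ¬ (labelled S x).CliqueFree c) * Q ^ (c.choose 2) ≤
      n.choose c * (S.card ^ (c.choose 2) * Fintype.card (Sym2 (Fin n) → Fin Q)) := by
  classical
  have h1 : nc (fun x : Sym2 (Fin n) → Fin Q => ¬ (labelled S x).CliqueFree c) ≤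
      ∑ U ∈ powersetCard c (univ : Finset (Fin n)),
        nc (fun x : Sym2 (Fin n) → Fin Q => ∀ e ∈ ed U, x e ∈ S) := by
    refine le_trans (nc_mono fun x hx => ?_) (nc_bex_le _ _)
    unfold SimpleGraph.CliqueFree at hx
    push Not at hx
    obtain ⟨U, hU⟩ := hx
    refine ⟨U, Finset.mem_powersetCard.2 ⟨Finset.subset_univ _, hU.card_eq⟩, ?_⟩
    intro e he
    induction e using Sym2.ind with
    | _ u v =>
      obtain ⟨huv, hu, hv⟩ := mem_ed.1 he
      have h2 := hU.isClique hu hv huv
      rw [labelled_eq] at h2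
      exact h2.2
  have h2 : ∀ U ∈ powersetCard c (univ : Finset (Fin n)),
      nc (fun x : Sym2 (Fin n) → Fin Q => ∀ e ∈ ed U, x e ∈ S) * Q ^ (c.choose 2) =
        S.card ^ (c.choose 2) * Fintype.card (Sym2 (Fin n) → Fin Q) := by
    intro U hU
    have h3 := nc_forall_mem (ed U) S
    rw [card_ed, (Finset.mem_powersetCard.1 hU).2, Fintype.card_fin] at h3
    exact h3
  calc nc (fun x : Sym2 (Fin n) → Fin Q => ¬ (labelled S x).CliqueFree c) * Q ^ (c.choose 2)
      ≤ (∑ U ∈ powersetCard c (univ : Finset (Fin n)),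
        nc (fun x : Sym2 (Fin n) → Fin Q => ∀ e ∈ ed U, x e ∈ S)) * Q ^ (c.choose 2) :=
        Nat.mul_le_mul_right _ h1
    _ = ∑ U ∈ powersetCard c (univ : Finset (Fin n)),
        S.card ^ (c.choose 2) * Fintype.card (Sym2 (Fin n) → Fin Q) := by
        rw [Finset.sum_mul]
        exact Finset.sum_congr rfl h2
    _ = _ := by
        rw [Finset.sum_const, Finset.card_powersetCard, Finset.card_univ, Fintype.card_fin,
          smul_eq_mul]

/-- **Upper bound.** -/
theorem upper (n k Q c : ℕ) (S : Finset (Fin Q)) (hc : c ≤ k) :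
    ∃ (s : ℕ) (C : Circuit n s) (out : Fin s)
      (W : Finset ((Sym2 (Fin n) → Fin Q) × Finset (Fin n))),
      s = n ^ 2 + n.choose c + 1 ∧ C.special = ∅ ∧
      (∀ y ∈ W, y.2.card = k ∧ Detects (C.fn out) (labelled S y.1) y.2) ∧
      Q ^ c.choose 2 * (Q ^ (n + 1).choose 2 * n.choose k) ≤
        Q ^ c.choose 2 * W.card +
          n.choose c * S.card ^ c.choose 2 * (Q ^ (n + 1).choose 2 * n.choose k) := by
  classical
  obtain ⟨s, C, out, hs, hsp, hC⟩ := exists_search n c
  have hcard : Fintype.card (Sym2 (Fin n) → Fin Q) = Q ^ (n + 1).choose 2 := by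
    rw [Fintype.card_fun, Sym2.card, Fintype.card_fin, Fintype.card_fin]
  refine ⟨s, C, out, (univ.filter fun x => (labelled S x).CliqueFree c) ×ˢ
    powersetCard k univ, hs, hsp, ?_, ?_⟩
  · intro y hy
    obtain ⟨h1, h2⟩ := Finset.mem_product.1 hy
    have h3 := (Finset.mem_filter.1 h1).2
    have h4 := (Finset.mem_powersetCard.1 h2).2
    refine ⟨h4, detects_iff.2 fun H hH hiff => ?_⟩
    rw [hC, hC] at hiff
    have h5 : ¬ (H ⊔ cq y.2).CliqueFree c := by
      obtain ⟨U, hU1, hU2⟩ := Finset.exists_subset_card_eq (show c ≤ y.2.card by omega)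
      intro hf
      refine hf U ⟨fun a ha b hb hab => Or.inr ⟨hab, hU1 ha, hU1 hb⟩, hU2⟩
    exact hiff.2 h5 (h3.anti hH)
  · rw [Finset.card_product, Finset.card_powersetCard, Finset.card_univ, Fintype.card_fin,
      ← nc_eq, ← hcard]
    have h1 := nc_add_nc_not fun x : Sym2 (Fin n) → Fin Q => (labelled S x).CliqueFree c
    have h2 := nc_clique (n := n) S c
    set X := nc (fun x : Sym2 (Fin n) → Fin Q => (labelled S x).CliqueFree c) with hX
    set Y := nc (fun x : Sym2 (Fin n) → Fin Q => ¬ (labelled S x).CliqueFree c) with hY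
    rw [← h1]
    rw [← h1] at h2
    calc Q ^ c.choose 2 * ((X + Y) * n.choose k)
        = Q ^ c.choose 2 * (X * n.choose k) + Y * Q ^ c.choose 2 * n.choose k := by ring
      _ ≤ Q ^ c.choose 2 * (X * n.choose k) +
          n.choose c * (S.card ^ c.choose 2 * (X + Y)) * n.choose k :=
          Nat.add_le_add_left (Nat.mul_le_mul_right _ h2) _
      _ = _ := by ring

end Pool.Agent.H25.PC
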